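import Pool.Agent.E8helper79.ZM.Joint

/-!
# Consequences of the joint measure
-/

set_option autoImplicit false

namespace Pool.Agent.E8helper79.ZM

open Pool.Agent.R352.E Pool.Agent.R352.Q MvPolynomial

lemma rename_coeff_le {ι κ : Type} {g : κ → ι} (hg : Function.Injective g) {P : MvPolynomial κ ℤ} {H : ℝ} (hH : 0 ≤ H)
    (h : ∀ s, |((P.coeff s : ℤ) : ℝ)| ≤ H) (s : ι →₀ ℕ) : |(((rename g P).coeff s : ℤ) : ℝ)| ≤ H := by
  by_cases hs : ∃ u : κ →₀ ℕ, Finsupp.mapDomain g u = s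
  · obtain ⟨u, rfl⟩ := hs
    rw [coeff_rename_mapDomain _ hg]
    exact h u
  · rw [coeff_rename_eq_zero _ _ _ (fun u hu => absurd ⟨u, hu⟩ hs)]
    simp only [Int.cast_zero, abs_zero]
    exact hH

lemma rename_ne {ι κ : Type} {g : κ → ι} (hg : Function.Injective g) {P : MvPolynomial κ ℤ} (h : P ≠ 0) :
    rename g P ≠ 0 := fun h0 => h (rename_injective g hg (h0.trans (map_zero _).symm))

/-- a joint measure for two families -/
def JM {ι κ : Type} (θ : ι → ℝ) (η : κ → ℝ) : Prop := ∀ d : ℕ, ∃ c : ℝ, 0 < c ∧ ∃ m : ℕ,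
  ∀ (P : MvPolynomial ι ℤ) (Q : MvPolynomial κ ℤ), P ≠ 0 → Q ≠ 0 → P.totalDegree ≤ d → Q.totalDegree ≤ d →
    ∀ H : ℝ, 1 ≤ H → (∀ s, |((P.coeff s : ℤ) : ℝ)| ≤ H) → (∀ s, |((Q.coeff s : ℤ) : ℝ)| ≤ H) →
      c / H ^ m ≤ |aeval θ P| ∨ c / H ^ m ≤ |aeval η Q|

lemma JM.symm {ι κ : Type} {θ : ι → ℝ} {η : κ → ℝ} (h : JM θ η) : JM η θ := by
  intro d
  obtain ⟨c, hc, m, h1⟩ := h d
  exact ⟨c, hc, m, fun P Q hP hQ hPd hQd H hH hPH hQH => (h1 Q P hQ hP hQd hPd H hH hQH hPH).symm⟩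

lemma JM.comp {ι κ κ' : Type} {θ : ι → ℝ} {η : κ → ℝ} (h : JM θ η) {g : κ' → κ} (hg : Function.Injective g) :
    JM θ (fun j => η (g j)) := by
  intro d
  obtain ⟨c, hc, m, h1⟩ := h d
  refine ⟨c, hc, m, fun P Q hP hQ hPd hQd H hH hPH hQH => ?_⟩
  have h2 := h1 P (rename g Q) hP (rename_ne hg hQ) hPd ((totalDegree_rename_le _ _).trans hQd) H hH hPH
    (rename_coeff_le hg (by linarith) hQH)
  rw [aeval_rename] at h2
  exact h2

lemma exists_rel {κ : Type} {η : κ → ℝ} (h : ¬ AlgebraicIndependent ℚ η) :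
    ∃ Q : MvPolynomial κ ℤ, Q ≠ 0 ∧ aeval η Q = 0 := by
  by_contra hcon
  push Not at hcon
  apply h
  have h1 : AlgebraicIndependent ℤ η := by
    rw [algebraicIndependent_iff]
    intro p hp
    by_contra hp0
    exact hcon p hp0 hp
  have h2 : Algebra.IsAlgebraic ℤ ℚ := IsLocalization.isAlgebraic ℚ (nonZeroDivisors ℤ)
  exact h1.extendScalars ℚ

/-- either the second family is algebraically independent, or the first has a measure -/
lemma JM.dich {ι κ : Type} {θ : ι → ℝ} {η : κ → ℝ} (h : JM θ η) : PM θ ∨ AlgebraicIndependent ℚ η := by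
  by_cases hη : AlgebraicIndependent ℚ η
  · exact Or.inr hη
  left
  obtain ⟨Q, hQ, hQ0⟩ := exists_rel hη
  intro d
  obtain ⟨c, hc, m, h1⟩ := h (max d Q.totalDegree)
  have hl := len_nonneg Q
  refine ⟨c / (1 + len Q) ^ m, by positivity, m, fun P hP hPd H hH hPH => ?_⟩
  have hH' : 1 ≤ (1 + len Q) * H := one_le_mul_of_one_le_of_one_le (by linarith) hH
  rcases h1 P Q hP hQ (hPd.trans (le_max_left _ _)) (le_max_right _ _) ((1 + len Q) * H) hH'
    (fun s => (hPH s).trans (by nlinarith)) (fun s => (abs_coeff_le_len Q s).trans (by nlinarith)) with h2 | h2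
  · rw [div_div, ← mul_pow]
    exact h2
  · rw [hQ0, abs_zero] at h2
    have h3 : 0 < c / ((1 + len Q) * H) ^ m := by
      have : 0 < (1 + len Q) * H := by linarith
      positivity
    linarith

/-! ## Approximation by algebraic numbers -/

lemma uni_bd {ι : Type} (i : ι) {p : Polynomial ℤ} {d : ℕ} (hd : p.natDegree ≤ d) {H : ℝ}
    (hH : ∀ j, |((p.coeff j : ℤ) : ℝ)| ≤ H) : (p.toMvPolynomial i).totalDegree ≤ d ∧
      ∀ s, |(((p.toMvPolynomial i).coeff s : ℤ) : ℝ)| ≤ (d + 1) * H := by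
  have h1 : p.toMvPolynomial i = ∑ j ∈ Finset.range (d + 1), C (p.coeff j) * X i ^ j := by
    have h2 := Polynomial.as_sum_range' p (d + 1) (by omega)
    conv_lhs => rw [h2, map_sum]
    refine Finset.sum_congr rfl fun j _ => ?_
    rw [← Polynomial.C_mul_X_pow_eq_monomial, map_mul, map_pow, Polynomial.toMvPolynomial_C, Polynomial.toMvPolynomial_X]
  have hH0 : 0 ≤ H := (abs_nonneg _).trans (hH 0)
  rw [h1]
  refine ⟨?_, fun s => ?_⟩
  · refine totalDegree_finsetSum_le fun j hj => ?_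
    refine (totalDegree_mul _ _).trans ?_
    rw [totalDegree_C, zero_add]
    refine (totalDegree_pow _ _).trans ?_
    rw [totalDegree_X, mul_one]
    have := Finset.mem_range.1 hj
    omega
  · refine (abs_coeff_le_len _ s).trans ((len_sum _ _).trans ?_)
    have h3 : ∀ j ∈ Finset.range (d + 1), len (C (p.coeff j) * X i ^ j : MvPolynomial ι ℤ) ≤ H := by
      intro j _
      refine (len_C_mul _ _).trans ?_
      have h4 : len (X i ^ j : MvPolynomial ι ℤ) ≤ 1 := by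
        have h5 : (X i ^ j : MvPolynomial ι ℤ) = monomial (Finsupp.single i j) 1 * 1 := by
          rw [mul_one, X_pow_eq_monomial]
        rw [h5]
        refine (len_monomial_mul _ _ _).trans ?_
        simpa using len_one (ι := ι)
      calc |((p.coeff j : ℤ) : ℝ)| * len (X i ^ j : MvPolynomial ι ℤ) ≤ H * 1 :=
            mul_le_mul (hH j) h4 (len_nonneg _) hH0
        _ = H := mul_one _
    refine (Finset.sum_le_sum h3).trans (le_of_eq ?_)
    rw [Finset.sum_const, Finset.card_range, nsmul_eq_mul]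
    push_cast
    ring

lemma norm_pow_sub (w α : ℂ) {M : ℝ} (hM : 1 ≤ M) (hw : ‖w‖ ≤ M) (hα : ‖α‖ ≤ M) (j : ℕ) :
    ‖w ^ j - α ^ j‖ ≤ j * M ^ j * ‖w - α‖ := by
  induction j with
  | zero => simp
  | succ j ih =>
    have h1 : w ^ (j + 1) - α ^ (j + 1) = w ^ j * (w - α) + (w ^ j - α ^ j) * α := by ring
    rw [h1]
    have hM0 : 0 ≤ M := by linarith
    have hn := norm_nonneg (w - α)
    calc ‖w ^ j * (w - α) + (w ^ j - α ^ j) * α‖ ≤ ‖w ^ j * (w - α)‖ + ‖(w ^ j - α ^ j) * α‖ := norm_add_le _ _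
      _ ≤ M ^ j * ‖w - α‖ + j * M ^ j * ‖w - α‖ * M := by
          rw [norm_mul, norm_mul, norm_pow]
          refine add_le_add ?_ ?_
          · exact mul_le_mul_of_nonneg_right (pow_le_pow_left₀ (norm_nonneg _) hw j) hn
          · exact mul_le_mul ih hα (norm_nonneg _) (by positivity)
      _ ≤ M ^ (j + 1) * ‖w - α‖ + j * M ^ j * ‖w - α‖ * M := by
          refine add_le_add (mul_le_mul_of_nonneg_right ?_ hn) le_rfl
          exact pow_le_pow_right₀ hM (by omega)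
      _ = (j + 1 : ℕ) * M ^ (j + 1) * ‖w - α‖ := by push_cast; ring

/-- the value of a polynomial near a root -/
lemma near_root (w : ℝ) {d : ℕ} {p : Polynomial ℤ} (hd : p.natDegree ≤ d) {H : ℝ} (hH : 0 ≤ H)
    (hp : ∀ j, |((p.coeff j : ℤ) : ℝ)| ≤ H) {α : ℂ} (hα : Polynomial.aeval α p = 0) (h1 : ‖(w : ℂ) - α‖ ≤ 1) :
    |Polynomial.aeval w p| ≤ (d + 1) * d * (|w| + 1) ^ d * H * ‖(w : ℂ) - α‖ := by
  have hw : |Polynomial.aeval w p| = ‖Polynomial.aeval (w : ℂ) p‖ := by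
    have h2 : Polynomial.aeval (w : ℂ) p = ((Polynomial.aeval w p : ℝ) : ℂ) := by
      have := Polynomial.aeval_algebraMap_apply ℂ w p
      simpa using this
    rw [h2, Complex.norm_real, Real.norm_eq_abs]
  have hM : 1 ≤ |w| + 1 := by have := abs_nonneg w; linarith
  have hwM : ‖(w : ℂ)‖ ≤ |w| + 1 := by rw [Complex.norm_real, Real.norm_eq_abs]; linarith
  have hαM : ‖α‖ ≤ |w| + 1 := by
    calc ‖α‖ = ‖(w : ℂ) - ((w : ℂ) - α)‖ := by congr 1; ring
      _ ≤ ‖(w : ℂ)‖ + ‖(w : ℂ) - α‖ := norm_sub_le _ _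
      _ ≤ |w| + 1 := by rw [Complex.norm_real, Real.norm_eq_abs]; linarith
  have h3 : Polynomial.aeval (w : ℂ) p = ∑ j ∈ Finset.range (d + 1), ((p.coeff j : ℤ) : ℂ) * ((w : ℂ) ^ j - α ^ j) := by
    have h4 : Polynomial.aeval (w : ℂ) p = Polynomial.aeval (w : ℂ) p - Polynomial.aeval α p := by rw [hα, sub_zero]
    rw [h4, Polynomial.aeval_eq_sum_range' (lt_of_le_of_lt hd (Nat.lt_succ_self d)),
      Polynomial.aeval_eq_sum_range' (lt_of_le_of_lt hd (Nat.lt_succ_self d)), ← Finset.sum_sub_distrib]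
    refine Finset.sum_congr rfl fun j _ => ?_
    rw [zsmul_eq_mul, zsmul_eq_mul]
    ring
  rw [hw, h3]
  refine (norm_sum_le _ _).trans ?_
  have h5 : ∀ j ∈ Finset.range (d + 1), ‖((p.coeff j : ℤ) : ℂ) * ((w : ℂ) ^ j - α ^ j)‖ ≤
      H * (d * (|w| + 1) ^ d * ‖(w : ℂ) - α‖) := by
    intro j hj
    have hjd : j ≤ d := by have := Finset.mem_range.1 hj; omega
    rw [norm_mul]
    refine mul_le_mul ?_ ?_ (norm_nonneg _) hH
    · have h6 : ‖((p.coeff j : ℤ) : ℂ)‖ = |((p.coeff j : ℤ) : ℝ)| := by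
        have : ((p.coeff j : ℤ) : ℂ) = (((p.coeff j : ℤ) : ℝ) : ℂ) := by push_cast; rfl
        rw [this, Complex.norm_real, Real.norm_eq_abs]
      rw [h6]
      exact hp j
    · refine (norm_pow_sub _ _ hM hwM hαM j).trans ?_
      refine mul_le_mul_of_nonneg_right ?_ (norm_nonneg _)
      refine mul_le_mul ?_ (pow_le_pow_right₀ hM hjd) (by positivity) (by positivity)
      exact_mod_cast hjd
  refine (Finset.sum_le_sum h5).trans (le_of_eq ?_)
  rw [Finset.sum_const, Finset.card_range, nsmul_eq_mul]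
  push_cast
  ring

/-- simultaneous approximation by algebraic numbers -/
lemma JM.approx {ι κ : Type} {θ : ι → ℝ} {η : κ → ℝ} (h : JM θ η) (i : ι) (j : κ) (d : ℕ) :
    ∃ c : ℝ, 0 < c ∧ ∃ m : ℕ, ∀ (p r : Polynomial ℤ), p ≠ 0 → r ≠ 0 → p.natDegree ≤ d → r.natDegree ≤ d →
      ∀ H : ℝ, 1 ≤ H → (∀ n, |((p.coeff n : ℤ) : ℝ)| ≤ H) → (∀ n, |((r.coeff n : ℤ) : ℝ)| ≤ H) →
      ∀ α β : ℂ, Polynomial.aeval α p = 0 → Polynomial.aeval β r = 0 →
        c / H ^ m ≤ max ‖((θ i : ℝ) : ℂ) - α‖ ‖((η j : ℝ) : ℂ) - β‖ := by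
  obtain ⟨c, hc, m, h1⟩ := h d
  obtain ⟨M, hM⟩ : ∃ M : ℝ, M = (d + 1) * d * (|θ i| + 1) ^ d + (d + 1) * d * (|η j| + 1) ^ d + 1 := ⟨_, rfl⟩
  have hM1 : 1 ≤ M := by rw [hM]; have h2 : (0 : ℝ) ≤ (d + 1) * d * (|θ i| + 1) ^ d := by positivity
                         have h3 : (0 : ℝ) ≤ (d + 1) * d * (|η j| + 1) ^ d := by positivity
                         linarith
  obtain ⟨c', hc'⟩ : ∃ c' : ℝ, c' = min 1 (c / (((d : ℝ) + 1) ^ m * M)) := ⟨_, rfl⟩
  have hc'0 : 0 < c' := by rw [hc']; exact lt_min one_pos (by positivity)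
  have hc'1 : c' ≤ 1 := by rw [hc']; exact min_le_left _ _
  have hc'2 : c' ≤ c / (((d : ℝ) + 1) ^ m * M) := by rw [hc']; exact min_le_right _ _
  refine ⟨c', hc'0, m + 1, fun p r hp hr hpd hrd H hH hpH hrH α β hα hβ => ?_⟩
  have hH0 : 0 < H := by linarith
  have hHm : 1 ≤ H ^ (m + 1) := one_le_pow₀ hH
  -- general step
  have step : ∀ (w : ℝ) (γ : ℂ) (u : Polynomial ℤ), u.natDegree ≤ d → (∀ n, |((u.coeff n : ℤ) : ℝ)| ≤ H) →
      Polynomial.aeval γ u = 0 → (d + 1) * d * (|w| + 1) ^ d ≤ M →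
      c / (((d : ℝ) + 1) * H) ^ m ≤ |Polynomial.aeval w u| → c' / H ^ (m + 1) ≤ ‖(w : ℂ) - γ‖ := by
    intro w γ u hud huH huγ hwM hval
    rcases le_or_gt ‖(w : ℂ) - γ‖ 1 with h2 | h2
    · have h3 := near_root w hud hH0.le huH huγ h2
      have hn := norm_nonneg ((w : ℂ) - γ)
      have h4 : c / (((d : ℝ) + 1) * H) ^ m ≤ M * H * ‖(w : ℂ) - γ‖ := by
        refine hval.trans (h3.trans ?_)
        refine mul_le_mul_of_nonneg_right ?_ hn
        exact mul_le_mul_of_nonneg_right hwM hH0.le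
      rw [div_le_iff₀ (by positivity)] at h4 ⊢
      have h5 : c ≤ (((d : ℝ) + 1) ^ m * M) * (‖(w : ℂ) - γ‖ * H ^ (m + 1)) := by
        refine h4.trans (le_of_eq ?_)
        rw [mul_pow]
        ring
      refine hc'2.trans ?_
      rw [div_le_iff₀ (by positivity)]
      exact h5.trans (le_of_eq (by ring))
    · have h3 : c' / H ^ (m + 1) ≤ 1 := by
        rw [div_le_one (by positivity)]
        exact hc'1.trans hHm
      linarith
  have hdH : 1 ≤ ((d : ℝ) + 1) * H := by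
    refine one_le_mul_of_one_le_of_one_le ?_ hH
    have : (0 : ℝ) ≤ d := Nat.cast_nonneg _
    linarith
  have hp' := uni_bd i hpd hpH
  have hr' := uni_bd j hrd hrH
  have hne : ∀ {τ : Type} (i : τ) {u : Polynomial ℤ}, u ≠ 0 → u.toMvPolynomial i ≠ 0 := by
    intro τ i u hu h0
    exact hu (Polynomial.toMvPolynomial_injective i (h0.trans (map_zero _).symm))
  have h2 : (0 : ℝ) ≤ (d + 1) * d * (|θ i| + 1) ^ d := by positivity
  have h3 : (0 : ℝ) ≤ (d + 1) * d * (|η j| + 1) ^ d := by positivity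
  rcases h1 (p.toMvPolynomial i) (r.toMvPolynomial j) (hne i hp) (hne j hr) hp'.1 hr'.1 (((d : ℝ) + 1) * H) hdH hp'.2
    hr'.2 with h4 | h4
  · rw [aeval_toMvPolynomial] at h4
    exact (step (θ i) α p hpd hpH hα (by rw [hM]; linarith) h4).trans (le_max_left _ _)
  · rw [aeval_toMvPolynomial] at h4
    exact (step (η j) β r hrd hrH hβ (by rw [hM]; linarith) h4).trans (le_max_right _ _)

end Pool.Agent.E8helper79.ZM
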