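import Mathlib

/-!
# The length of an integer polynomial in several variables
-/

set_option autoImplicit false

open MvPolynomial

namespace Pool.Agent.E8helper79.ZM

variable {ι : Type}

/-- the length: sum of the absolute values of the coefficients -/
noncomputable def len (P : MvPolynomial ι ℤ) : ℝ := ∑ s ∈ P.support, |((P.coeff s : ℤ) : ℝ)|

lemma len_nonneg (P : MvPolynomial ι ℤ) : 0 ≤ len P := Finset.sum_nonneg fun _ _ => abs_nonneg _

lemma len_eq {P : MvPolynomial ι ℤ} {F : Finset (ι →₀ ℕ)} (h : P.support ⊆ F) :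
    len P = ∑ s ∈ F, |((P.coeff s : ℤ) : ℝ)| :=
  Finset.sum_subset h (fun s _ hs => by rw [MvPolynomial.notMem_support_iff.1 hs]; simp)

lemma abs_coeff_le_len (P : MvPolynomial ι ℤ) (s : ι →₀ ℕ) : |((P.coeff s : ℤ) : ℝ)| ≤ len P := by
  by_cases hs : s ∈ P.support
  · exact Finset.single_le_sum (f := fun s => |((P.coeff s : ℤ) : ℝ)|) (fun _ _ => abs_nonneg _) hs
  · rw [notMem_support_iff.1 hs, Int.cast_zero, abs_zero]
    exact len_nonneg P

lemma len_zero : len (0 : MvPolynomial ι ℤ) = 0 := by simp [len]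

lemma len_neg (P : MvPolynomial ι ℤ) : len (-P) = len P := by
  rw [len, len, support_neg]
  refine Finset.sum_congr rfl fun s _ => ?_
  rw [coeff_neg, Int.cast_neg, abs_neg]

lemma len_add (P Q : MvPolynomial ι ℤ) : len (P + Q) ≤ len P + len Q := by
  classical
  rw [len_eq support_add, len_eq (P := P) (F := P.support ∪ Q.support) Finset.subset_union_left,
    len_eq (P := Q) (F := P.support ∪ Q.support) Finset.subset_union_right, ← Finset.sum_add_distrib]
  refine Finset.sum_le_sum fun s _ => ?_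
  rw [coeff_add]
  push_cast
  exact abs_add_le _ _

lemma len_sum {κ : Type*} (s : Finset κ) (f : κ → MvPolynomial ι ℤ) : len (∑ k ∈ s, f k) ≤ ∑ k ∈ s, len (f k) := by
  classical
  induction s using Finset.induction_on with
  | empty => simp [len_zero]
  | insert a s ha ih =>
    rw [Finset.sum_insert ha, Finset.sum_insert ha]
    exact (len_add _ _).trans (add_le_add le_rfl ih)

lemma len_monomial_mul (s : ι →₀ ℕ) (a : ℤ) (Q : MvPolynomial ι ℤ) :
    len (monomial s a * Q) ≤ |(a : ℝ)| * len Q := by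
  classical
  have h1 : (monomial s a * Q).support ⊆ Q.support.image (fun m => s + m) := by
    intro m hm
    rw [mem_support_iff, coeff_monomial_mul'] at hm
    rw [Finset.mem_image]
    by_cases hsm : s ≤ m
    · rw [if_pos hsm] at hm
      refine ⟨m - s, ?_, add_tsub_cancel_of_le hsm⟩
      rw [mem_support_iff]
      intro h
      rw [h, mul_zero] at hm
      exact hm rfl
    · rw [if_neg hsm] at hm
      exact absurd rfl hm
  rw [len_eq h1, Finset.sum_image (fun x _ y _ h => add_left_cancel h), len, Finset.mul_sum]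
  refine le_of_eq (Finset.sum_congr rfl fun m _ => ?_)
  rw [coeff_monomial_mul, Int.cast_mul, abs_mul]

lemma len_mul (P Q : MvPolynomial ι ℤ) : len (P * Q) ≤ len P * len Q := by
  conv_lhs => rw [MvPolynomial.as_sum P, Finset.sum_mul]
  refine (len_sum _ _).trans ?_
  rw [len, Finset.sum_mul]
  exact Finset.sum_le_sum fun s _ => len_monomial_mul _ _ _

lemma len_C_mul (a : ℤ) (Q : MvPolynomial ι ℤ) : len (C a * Q) ≤ |(a : ℝ)| * len Q := len_monomial_mul 0 a Q

lemma len_one : len (1 : MvPolynomial ι ℤ) ≤ 1 := by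
  classical
  rw [len_eq (P := (1 : MvPolynomial ι ℤ)) (F := {0})]
  · simp
  · intro s hs
    rw [mem_support_iff, coeff_one] at hs
    rw [Finset.mem_singleton]
    by_contra h2
    rw [if_neg (Ne.symm h2)] at hs
    exact hs rfl

lemma len_prod {κ : Type*} (s : Finset κ) (f : κ → MvPolynomial ι ℤ) : len (∏ k ∈ s, f k) ≤ ∏ k ∈ s, len (f k) := by
  classical
  induction s using Finset.induction_on with
  | empty => simp only [Finset.prod_empty]; exact len_one
  | insert a s ha ih =>
    rw [Finset.prod_insert ha, Finset.prod_insert ha]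
    exact (len_mul _ _).trans (mul_le_mul_of_nonneg_left ih (len_nonneg _))

/-- bound for the length of a determinant -/
lemma len_det {N : ℕ} (M : Matrix (Fin N) (Fin N) (MvPolynomial ι ℤ)) {L : ℝ} (h : ∀ i j, len (M i j) ≤ L) :
    len M.det ≤ N.factorial * L ^ N := by
  rw [Matrix.det_apply]
  refine (len_sum _ _).trans ?_
  have h1 : ∀ σ ∈ (Finset.univ : Finset (Equiv.Perm (Fin N))),
      len (Equiv.Perm.sign σ • ∏ i, M (σ i) i) ≤ L ^ N := by
    intro σ _
    have h2 : len (∏ i, M (σ i) i) ≤ L ^ N := by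
      refine (len_prod _ _).trans ?_
      refine (Finset.prod_le_prod (fun i _ => len_nonneg _) (fun i _ => h _ _)).trans (le_of_eq ?_)
      rw [Finset.prod_const, Finset.card_univ, Fintype.card_fin]
    rcases Int.units_eq_one_or (Equiv.Perm.sign σ) with h3 | h3
    · rw [h3, one_smul]; exact h2
    · rw [h3, Units.neg_smul, one_smul, len_neg]; exact h2
  refine (Finset.sum_le_sum h1).trans (le_of_eq ?_)
  rw [Finset.sum_const, Finset.card_univ, Fintype.card_perm, Fintype.card_fin, nsmul_eq_mul]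

/-- bound for the total degree of a determinant -/
lemma totalDegree_det {N D : ℕ} (M : Matrix (Fin N) (Fin N) (MvPolynomial ι ℤ)) (h : ∀ i j, (M i j).totalDegree ≤ D) :
    M.det.totalDegree ≤ N * D := by
  rw [Matrix.det_apply]
  refine totalDegree_finsetSum_le fun σ _ => ?_
  have h2 : (∏ i, M (σ i) i).totalDegree ≤ N * D := by
    refine (totalDegree_finsetProd _ _).trans ?_
    refine (Finset.sum_le_sum (fun i _ => h (σ i) i)).trans (le_of_eq ?_)
    rw [Finset.sum_const, Finset.card_univ, Fintype.card_fin, smul_eq_mul]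
  rcases Int.units_eq_one_or (Equiv.Perm.sign σ) with h3 | h3
  · rw [h3, one_smul]; exact h2
  · rw [h3, Units.neg_smul, one_smul, totalDegree_neg]; exact h2

/-- bound for a value -/
lemma aeval_le [Fintype ι] {η : ι → ℝ} {B : ℝ} (hB : 1 ≤ B) (hη : ∀ i, |η i| ≤ B) {D : ℕ} (P : MvPolynomial ι ℤ)
    (hP : P.totalDegree ≤ D) : |aeval η P| ≤ len P * B ^ D := by
  conv_lhs => rw [MvPolynomial.as_sum P, map_sum]
  refine (Finset.abs_sum_le_sum_abs _ _).trans ?_
  rw [len, Finset.sum_mul]
  refine Finset.sum_le_sum fun s hs => ?_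
  rw [aeval_monomial, abs_mul, Finsupp.prod_fintype _ _ (fun i => pow_zero _)]
  refine mul_le_mul (le_of_eq (by simp)) ?_ (abs_nonneg _) (abs_nonneg _)
  rw [Finset.abs_prod]
  have h1 : ∑ i, s i ≤ D := by
    have h2 := (le_totalDegree hs).trans hP
    rwa [Finsupp.sum_fintype _ _ (fun _ => rfl)] at h2
  calc ∏ i, |η i ^ s i| ≤ ∏ i, B ^ s i := by
        refine Finset.prod_le_prod (fun i _ => abs_nonneg _) fun i _ => ?_
        rw [abs_pow]
        exact pow_le_pow_left₀ (abs_nonneg _) (hη i) _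
    _ = B ^ ∑ i, s i := Finset.prod_pow_eq_pow_sum _ _ _
    _ ≤ B ^ D := pow_le_pow_right₀ hB h1

lemma box_finite (κ : Type) [Finite κ] (d : ℕ) : {s : κ →₀ ℕ | ∀ i, s i ≤ d}.Finite := by
  classical
  have h := Set.finite_Iic (Finsupp.equivFunOnFinite.symm (fun _ => d) : κ →₀ ℕ)
  exact h.subset fun s hs i => hs i

/-- the exponents up to `d` -/
noncomputable def box (κ : Type) [Finite κ] (d : ℕ) : Finset (κ →₀ ℕ) := (box_finite κ d).toFinset

lemma mem_box {κ : Type} [Finite κ] {d : ℕ} {s : κ →₀ ℕ} : s ∈ box κ d ↔ ∀ i, s i ≤ d := by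
  rw [box, Set.Finite.mem_toFinset, Set.mem_ofPred_eq]

lemma support_box {κ : Type} [Finite κ] {d : ℕ} {P : MvPolynomial κ ℤ} (h : P.totalDegree ≤ d) :
    P.support ⊆ box κ d := by
  intro s hs
  rw [mem_box]
  intro i
  have := Fintype.ofFinite κ
  have h2 := (le_totalDegree hs).trans h
  rw [Finsupp.sum_fintype _ _ (fun _ => rfl)] at h2
  exact (Finset.single_le_sum (f := fun i => s i) (fun _ _ => Nat.zero_le _) (Finset.mem_univ i)).trans h2

/-- degree and length of a linear image of a polynomial of bounded degree and height -/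
lemma fam_bd {κ : Type} [Finite κ] (T : (κ →₀ ℕ) → MvPolynomial ι ℤ) (d : ℕ) : ∃ (D : ℕ) (L : ℝ), 0 ≤ L ∧
    ∀ P : MvPolynomial κ ℤ, P.totalDegree ≤ d → ∀ H : ℝ, 0 ≤ H → (∀ s, |((P.coeff s : ℤ) : ℝ)| ≤ H) →
      (∑ s ∈ P.support, C (P.coeff s) * T s).totalDegree ≤ D ∧
      len (∑ s ∈ P.support, C (P.coeff s) * T s) ≤ L * H := by
  refine ⟨∑ s ∈ box κ d, (T s).totalDegree, ∑ s ∈ box κ d, len (T s), Finset.sum_nonneg fun _ _ => len_nonneg _,
    fun P hP H hH hc => ⟨?_, ?_⟩⟩
  · refine totalDegree_finsetSum_le fun s hs => ?_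
    refine (totalDegree_mul _ _).trans ?_
    rw [totalDegree_C, zero_add]
    exact Finset.single_le_sum (f := fun s => (T s).totalDegree) (fun _ _ => Nat.zero_le _) (support_box hP hs)
  · refine (len_sum _ _).trans ?_
    refine (Finset.sum_le_sum_of_subset_of_nonneg (support_box hP) (fun s _ _ => len_nonneg _)).trans ?_
    rw [Finset.sum_mul]
    refine Finset.sum_le_sum fun s _ => ?_
    rw [mul_comm (len (T s)) H]
    exact (len_C_mul _ _).trans (mul_le_mul_of_nonneg_right (hc s) (len_nonneg _))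

/-- the same for polynomials with polynomial coefficients -/
lemma fam_bd' {κ : Type} [Finite κ] (T : (κ →₀ ℕ) → Polynomial (MvPolynomial ι ℤ)) (d : ℕ) :
    ∃ (N D : ℕ) (L : ℝ), 0 ≤ L ∧
    ∀ P : MvPolynomial κ ℤ, P.totalDegree ≤ d → ∀ H : ℝ, 0 ≤ H → (∀ s, |((P.coeff s : ℤ) : ℝ)| ≤ H) →
      (∑ s ∈ P.support, Polynomial.C (C (P.coeff s)) * T s).natDegree ≤ N ∧
      ∀ j, ((∑ s ∈ P.support, Polynomial.C (C (P.coeff s)) * T s).coeff j).totalDegree ≤ D ∧
      len ((∑ s ∈ P.support, Polynomial.C (C (P.coeff s)) * T s).coeff j) ≤ L * H := by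
  obtain ⟨N, hN⟩ : ∃ N, ∀ s ∈ box κ d, (T s).natDegree ≤ N :=
    ⟨∑ s ∈ box κ d, (T s).natDegree, fun s hs =>
      Finset.single_le_sum (f := fun s => (T s).natDegree) (fun _ _ => Nat.zero_le _) hs⟩
  have h1 := fun j : ℕ => fam_bd (fun s => (T s).coeff j) d
  choose D L hL h2 using h1
  have hdeg : ∀ P : MvPolynomial κ ℤ, P.totalDegree ≤ d →
      (∑ s ∈ P.support, Polynomial.C (C (P.coeff s)) * T s).natDegree ≤ N := by
    intro P hP
    refine Polynomial.natDegree_sum_le_of_forall_le _ _ fun s hs => ?_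
    exact (Polynomial.natDegree_C_mul_le _ _).trans (hN s (support_box hP hs))
  refine ⟨N, ∑ j ∈ Finset.range (N + 1), D j, ∑ j ∈ Finset.range (N + 1), L j, Finset.sum_nonneg fun _ _ => hL _,
    fun P hP H hH hc => ⟨hdeg P hP, fun j => ?_⟩⟩
  by_cases hj : j ≤ N
  · have hj' : j ∈ Finset.range (N + 1) := Finset.mem_range.2 (by omega)
    have h3 : (∑ s ∈ P.support, Polynomial.C (C (P.coeff s)) * T s).coeff j =
        ∑ s ∈ P.support, C (P.coeff s) * (T s).coeff j := by
      rw [Polynomial.finsetSum_coeff]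
      exact Finset.sum_congr rfl fun s _ => Polynomial.coeff_C_mul _
    rw [h3]
    obtain ⟨h4, h5⟩ := h2 j P hP H hH hc
    refine ⟨h4.trans (Finset.single_le_sum (f := fun j => D j) (fun _ _ => Nat.zero_le _) hj'), h5.trans ?_⟩
    exact mul_le_mul_of_nonneg_right (Finset.single_le_sum (f := fun j => L j) (fun _ _ => hL _) hj') hH
  · rw [Polynomial.coeff_eq_zero_of_natDegree_lt (lt_of_le_of_lt (hdeg P hP) (by omega)), len_zero, totalDegree_zero]
    exact ⟨Nat.zero_le _, mul_nonneg (Finset.sum_nonneg fun _ _ => hL _) hH⟩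

end Pool.Agent.E8helper79.ZM
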