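import Mathlib
import Pool.Agent.Y113.G.Lin
import Pool.Agent.E8helper79.ZM.Len

/-!
# Elimination by resultants, with bounds
-/

set_option autoImplicit false

namespace Pool.Agent.E8helper79.ZM

section real

open Polynomial

/-- the row vector of the powers times the Sylvester matrix -/
lemma sylv_eval {R : Type*} [CommRing R] (f g : R[X]) {m n : ℕ} (hf : f.natDegree ≤ m) (hg : g.natDegree ≤ n) (z : R)
    (j : Fin (m + n)) : ∑ i : Fin (m + n), z ^ (i : ℕ) * sylvester f g m n i j =
      Fin.addCases (motive := fun _ => R) (fun j₁ => z ^ (j₁ : ℕ) * g.eval z) (fun j₁ => z ^ (j₁ : ℕ) * f.eval z) j := by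
  induction j using Fin.addCases with
  | left j₁ =>
    rw [Fin.addCases_left]
    have h1 : ∀ i : Fin (m + n), sylvester f g m n i (Fin.castAdd n j₁) = (g * X ^ (j₁ : ℕ)).coeff i := by
      intro i
      simp only [sylvester, Matrix.of_apply, Fin.addCases_left, Set.mem_Icc, coeff_mul_X_pow']
      by_cases h : (j₁ : ℕ) ≤ i
      · by_cases h2 : (i : ℕ) ≤ j₁ + n
        · rw [if_pos ⟨h, h2⟩, if_pos h]
        · rw [if_neg (fun h3 => h2 h3.2), if_pos h, coeff_eq_zero_of_natDegree_lt (by omega)]
      · rw [if_neg (fun h3 => h h3.1), if_neg h]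
    simp only [h1]
    have h2 : (g * X ^ (j₁ : ℕ)).eval z = z ^ (j₁ : ℕ) * g.eval z := by simp [mul_comm]
    have h3 : (g * X ^ (j₁ : ℕ)).natDegree < m + n := by
      have h4 := natDegree_mul_le (p := g) (q := X ^ (j₁ : ℕ))
      have h5 := natDegree_X_pow_le (R := R) (j₁ : ℕ)
      have := j₁.2
      omega
    rw [← h2, eval_eq_sum_range' h3, Finset.sum_range]
    exact Finset.sum_congr rfl fun i _ => mul_comm _ _
  | right j₁ =>
    rw [Fin.addCases_right]
    have h1 : ∀ i : Fin (m + n), sylvester f g m n i (Fin.natAdd m j₁) = (f * X ^ (j₁ : ℕ)).coeff i := by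
      intro i
      simp only [sylvester, Matrix.of_apply, Fin.addCases_right, Set.mem_Icc, coeff_mul_X_pow']
      by_cases h : (j₁ : ℕ) ≤ i
      · by_cases h2 : (i : ℕ) ≤ j₁ + m
        · rw [if_pos ⟨h, h2⟩, if_pos h]
        · rw [if_neg (fun h3 => h2 h3.2), if_pos h, coeff_eq_zero_of_natDegree_lt (by omega)]
      · rw [if_neg (fun h3 => h h3.1), if_neg h]
    simp only [h1]
    have h2 : (f * X ^ (j₁ : ℕ)).eval z = z ^ (j₁ : ℕ) * f.eval z := by simp [mul_comm]
    have h3 : (f * X ^ (j₁ : ℕ)).natDegree < m + n := by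
      have h4 := natDegree_mul_le (p := f) (q := X ^ (j₁ : ℕ))
      have h5 := natDegree_X_pow_le (R := R) (j₁ : ℕ)
      have := j₁.2
      omega
    rw [← h2, eval_eq_sum_range' h3, Finset.sum_range]
    exact Finset.sum_congr rfl fun i _ => mul_comm _ _

/-- upper bound for a resultant by the values at one point -/
lemma det_syl_le (f g : ℝ[X]) {m n : ℕ} (hmn : 0 < m + n) (hf : f.natDegree ≤ m) (hg : g.natDegree ≤ n) (z : ℝ)
    {X Z E : ℝ} (hX : 1 ≤ X) (hfX : ∀ j, |f.coeff j| ≤ X) (hgX : ∀ j, |g.coeff j| ≤ X) (hZ : 1 ≤ Z) (hz : |z| ≤ Z)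
    (hfE : |f.eval z| ≤ E) (hgE : |g.eval z| ≤ E) :
    |resultant f g m n| ≤ (m + n : ℕ) * (Z ^ (m + n) * E * ((m + n).factorial * X ^ (m + n))) := by
  have hE : 0 ≤ E := (abs_nonneg _).trans hfE
  have hX0 : (0 : ℝ) ≤ X := by linarith
  have hZ0 : (0 : ℝ) ≤ Z := by linarith
  set M := sylvester f g m n with hM
  set v : Fin (m + n) → ℝ := fun i => z ^ (i : ℕ) with hv
  have hMX : ∀ i j, |M i j| ≤ X := by
    intro i j
    rw [hM]
    induction j using Fin.addCases with
    | left j₁ =>
      simp only [sylvester, Matrix.of_apply, Fin.addCases_left]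
      split_ifs
      · exact hgX _
      · rw [abs_zero]; exact hX0
    | right j₁ =>
      simp only [sylvester, Matrix.of_apply, Fin.addCases_right]
      split_ifs
      · exact hfX _
      · rw [abs_zero]; exact hX0
  have h1 : Matrix.vecMul (Matrix.vecMul v M) M.adjugate = M.det • v := by
    rw [Matrix.vecMul_vecMul, Matrix.mul_adjugate, Matrix.vecMul_smul, Matrix.vecMul_one]
  have h2 := congrFun h1 ⟨0, hmn⟩
  have h3 : (M.det • v) ⟨0, hmn⟩ = M.det := by
    simp [hv]
  rw [h3] at h2
  have h4 : Matrix.vecMul (Matrix.vecMul v M) M.adjugate ⟨0, hmn⟩ =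
      ∑ j, Matrix.vecMul v M j * M.adjugate j ⟨0, hmn⟩ := rfl
  rw [resultant, ← hM, ← h2, h4]
  refine (Finset.abs_sum_le_sum_abs _ _).trans ?_
  have h5 : ∀ j ∈ (Finset.univ : Finset (Fin (m + n))), |Matrix.vecMul v M j * M.adjugate j ⟨0, hmn⟩| ≤
      Z ^ (m + n) * E * ((m + n).factorial * X ^ (m + n)) := by
    intro j _
    rw [abs_mul]
    refine mul_le_mul ?_ ?_ (abs_nonneg _) (by positivity)
    · have h6 : Matrix.vecMul v M j = ∑ i : Fin (m + n), z ^ (i : ℕ) * sylvester f g m n i j := rfl
      rw [h6, sylv_eval f g hf hg]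
      have hpow : ∀ j₁ : ℕ, j₁ ≤ m + n → |z| ^ j₁ ≤ Z ^ (m + n) := fun j₁ hj =>
        (pow_le_pow_left₀ (abs_nonneg _) hz _).trans (pow_le_pow_right₀ hZ hj)
      induction j using Fin.addCases with
      | left j₁ =>
        rw [Fin.addCases_left, abs_mul, abs_pow]
        exact mul_le_mul (hpow _ (by have := j₁.2; omega)) hgE (abs_nonneg _) (by positivity)
      | right j₁ =>
        rw [Fin.addCases_right, abs_mul, abs_pow]
        exact mul_le_mul (hpow _ (by have := j₁.2; omega)) hfE (abs_nonneg _) (by positivity)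
    · rw [Matrix.adjugate_apply]
      refine (Pool.Agent.Y113.det_bound _ (fun _ => X) ?_).trans (le_of_eq ?_)
      · intro s i
        by_cases hs : s = ⟨0, hmn⟩
        · rw [hs, Matrix.updateRow_self]
          by_cases hi : i = j
          · rw [hi, Pi.single_eq_same, abs_one]; exact hX
          · rw [Pi.single_eq_of_ne hi, abs_zero]; exact hX0
        · rw [Matrix.updateRow_ne hs]
          exact hMX s i
      · rw [Finset.prod_const, Finset.card_univ, Fintype.card_fin]
  refine (Finset.sum_le_sum h5).trans (le_of_eq ?_)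
  rw [Finset.sum_const, Finset.card_univ, Fintype.card_fin, nsmul_eq_mul]

end real

section nonzero

variable {S : Type} (T : S → Prop) [DecidablePred T]

/-- the polynomial `P(Y, e)` -/
noncomputable def polF (P : MvPolynomial (Fin 2) ℤ) : Polynomial (MvPolynomial (Option S) ℤ) :=
  MvPolynomial.aeval ![Polynomial.X, Polynomial.C (MvPolynomial.X none)] P

/-- the polynomial `Q(e, Y - X_s, X_s)` -/
noncomputable def polG (Q : MvPolynomial (Option S) ℤ) : Polynomial (MvPolynomial (Option S) ℤ) :=
  MvPolynomial.aeval (fun o => o.elim (Polynomial.C (MvPolynomial.X none))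
    (fun s => if T s then Polynomial.X - Polynomial.C (MvPolynomial.X (some s))
      else Polynomial.C (MvPolynomial.X (some s)))) Q

variable {K : Type} [Field K] (φ : Polynomial ℤ →+* K)

/-- the ring homomorphism which makes `e` a constant -/
noncomputable def psiA : MvPolynomial (Option S) ℤ →+* MvPolynomial S K :=
  (MvPolynomial.map φ).comp (MvPolynomial.optionEquivRight ℤ S).toRingHom

lemma psiA_none : psiA (S := S) φ (MvPolynomial.X none) = MvPolynomial.C (φ Polynomial.X) := by
  show MvPolynomial.map φ (MvPolynomial.optionEquivRight ℤ S (MvPolynomial.X none)) = _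
  rw [MvPolynomial.optionEquivRight_X_none, MvPolynomial.map_C]

lemma psiA_some (s : S) : psiA (S := S) φ (MvPolynomial.X (some s)) = MvPolynomial.X s := by
  show MvPolynomial.map φ (MvPolynomial.optionEquivRight ℤ S (MvPolynomial.X (some s))) = _
  rw [MvPolynomial.optionEquivRight_X_some, MvPolynomial.map_X]

lemma psiA_inj (hφ : Function.Injective φ) : Function.Injective (psiA (S := S) φ) := by
  intro x y h
  exact (MvPolynomial.optionEquivRight ℤ S).injective (MvPolynomial.map_injective φ hφ h)

/-- the polynomial `P(Y, e)` over the field -/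
noncomputable def polP : MvPolynomial (Fin 2) ℤ →+* Polynomial K :=
  (Polynomial.mapRingHom (φ.comp (MvPolynomial.uniqueAlgEquiv ℤ (Fin 1)).toRingHom)).comp
    (MvPolynomial.finSuccEquiv ℤ 1).toRingHom

lemma polP_inj (hφ : Function.Injective φ) : Function.Injective (polP φ) := by
  intro x y h
  apply (MvPolynomial.finSuccEquiv ℤ 1).injective
  refine Polynomial.map_injective (φ.comp (MvPolynomial.uniqueAlgEquiv ℤ (Fin 1)).toRingHom) ?_ h
  intro a b hab
  exact (MvPolynomial.uniqueAlgEquiv ℤ (Fin 1)).injective (hφ hab)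

lemma polP_zero : polP φ (MvPolynomial.X 0) = Polynomial.X := by
  show Polynomial.map _ (MvPolynomial.finSuccEquiv ℤ 1 (MvPolynomial.X 0)) = _
  rw [MvPolynomial.finSuccEquiv_X_zero, Polynomial.map_X]

lemma polP_one : polP φ (MvPolynomial.X 1) = Polynomial.C (φ Polynomial.X) := by
  show Polynomial.map _ (MvPolynomial.finSuccEquiv ℤ 1 (MvPolynomial.X (Fin.succ 0))) = _
  rw [MvPolynomial.finSuccEquiv_X_succ, Polynomial.map_C]
  congr 1
  show φ (MvPolynomial.uniqueAlgEquiv ℤ (Fin 1) (MvPolynomial.X 0)) = _
  simp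

lemma polF_map (P : MvPolynomial (Fin 2) ℤ) : (polF (S := S) P).map (psiA φ) = (polP φ P).map MvPolynomial.C := by
  have h : ((Polynomial.mapRingHom (psiA (S := S) φ)).comp
      (MvPolynomial.aeval ![Polynomial.X, Polynomial.C (MvPolynomial.X none)] :
        MvPolynomial (Fin 2) ℤ →ₐ[ℤ] Polynomial (MvPolynomial (Option S) ℤ)).toRingHom) =
      (Polynomial.mapRingHom MvPolynomial.C).comp (polP φ) := by
    apply MvPolynomial.ringHom_ext
    · intro r
      simp
    · intro i
      fin_cases i
      · show Polynomial.map _ (MvPolynomial.aeval _ (MvPolynomial.X 0)) =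
          Polynomial.map _ (polP φ (MvPolynomial.X 0))
        rw [MvPolynomial.aeval_X, polP_zero]
        simp
      · show Polynomial.map _ (MvPolynomial.aeval _ (MvPolynomial.X 1)) =
          Polynomial.map _ (polP φ (MvPolynomial.X 1))
        rw [MvPolynomial.aeval_X, polP_one]
        simp [psiA_none]
  exact congrArg (fun g => g P) h

/-- the substitution `X_s ↦ α - X_s` -/
noncomputable def subA (α : K) : MvPolynomial S K →ₐ[K] MvPolynomial S K :=
  MvPolynomial.aeval (fun s => if T s then MvPolynomial.C α - MvPolynomial.X s else MvPolynomial.X s)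

lemma subA_subA (α : K) (P : MvPolynomial S K) : subA T α (subA T α P) = P := by
  have h : (subA T α).comp (subA T α) = AlgHom.id K _ := by
    apply MvPolynomial.algHom_ext
    intro s
    rw [AlgHom.comp_apply, AlgHom.id_apply, subA, MvPolynomial.aeval_X]
    split_ifs with hs
    · rw [map_sub, MvPolynomial.aeval_X, if_pos hs, MvPolynomial.aeval_C, MvPolynomial.algebraMap_eq]
      ring
    · rw [MvPolynomial.aeval_X, if_neg hs]
  exact congrArg (fun g => g P) h

lemma polG_eval (α : K) (Q : MvPolynomial (Option S) ℤ) :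
    ((polG T Q).map (psiA φ)).eval (MvPolynomial.C α) = subA T α (psiA φ Q) := by
  have h : ((Polynomial.evalRingHom (MvPolynomial.C α : MvPolynomial S K)).comp
      ((Polynomial.mapRingHom (psiA (S := S) φ)).comp
      (MvPolynomial.aeval (fun o : Option S => o.elim (Polynomial.C (MvPolynomial.X none))
        (fun s => if T s then Polynomial.X - Polynomial.C (MvPolynomial.X (some s))
        else Polynomial.C (MvPolynomial.X (some s)))) :
        MvPolynomial (Option S) ℤ →ₐ[ℤ] Polynomial (MvPolynomial (Option S) ℤ)).toRingHom)) =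
      (subA T α).toRingHom.comp (psiA φ) := by
    apply MvPolynomial.ringHom_ext
    · intro r
      simp
    · intro i
      show Polynomial.eval (MvPolynomial.C α) (Polynomial.map (psiA φ) (MvPolynomial.aeval _ (MvPolynomial.X i))) =
        subA T α (psiA φ (MvPolynomial.X i))
      rw [MvPolynomial.aeval_X]
      cases i with
      | none =>
        rw [psiA_none, subA, MvPolynomial.aeval_C, MvPolynomial.algebraMap_eq]
        simp [psiA_none]
      | some s =>
        rw [psiA_some, subA, MvPolynomial.aeval_X]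
        simp only [Option.elim]
        split_ifs with hs
        · simp [psiA_some]
        · simp [psiA_some]
  exact congrArg (fun g => g Q) h

/-- the resultant does not vanish -/
lemma res_ne_zero [IsAlgClosed K] (hφ : Function.Injective φ) {P : MvPolynomial (Fin 2) ℤ} (hP : P ≠ 0)
    {Q : MvPolynomial (Option S) ℤ} (hQ : Q ≠ 0) {n : ℕ} (hn : (polG T Q).natDegree ≤ n) :
    Polynomial.resultant (polF P) (polG T Q) (polF (S := S) P).natDegree n ≠ 0 := by
  intro h0
  have hinj := psiA_inj (S := S) φ hφ
  have h1 := congrArg (psiA (S := S) φ) h0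
  rw [map_zero, ← Polynomial.resultant_map_map, ← Polynomial.natDegree_map_eq_of_injective hinj (polF P), polF_map] at h1
  have hp0 : polP φ P ≠ 0 := fun h => hP (polP_inj φ hφ (h.trans (map_zero _).symm))
  have hspl : (polP φ P).Splits := IsAlgClosed.splits _
  have hCinj : Function.Injective (MvPolynomial.C : K →+* MvPolynomial S K) := MvPolynomial.C_injective _ _
  rw [Polynomial.resultant_eq_prod_eval _ _ _ (Polynomial.natDegree_map_le.trans hn) (hspl.map _),
    hspl.roots_map_of_injective hCinj] at h1
  rcases mul_eq_zero.1 h1 with h2 | h2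
  · have h3 := eq_zero_of_pow_eq_zero h2
    rw [Polynomial.leadingCoeff_eq_zero] at h3
    exact hp0 ((Polynomial.map_injective _ hCinj) (h3.trans (Polynomial.map_zero _).symm))
  · rw [Multiset.prod_eq_zero_iff, Multiset.map_map, Multiset.mem_map] at h2
    obtain ⟨α, -, hα⟩ := h2
    rw [Function.comp_apply, polG_eval] at hα
    have h4 := congrArg (subA T α) hα
    rw [subA_subA, map_zero] at h4
    exact hQ (hinj (h4.trans (map_zero _).symm))

end nonzero

end Pool.Agent.E8helper79.ZM
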