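import Pool.Agent.E8helper79.ZM.Cor

/-!
# The joint measure in its final form
-/

set_option autoImplicit false

namespace Pool.Agent.E8helper79.ZM

open Pool.Agent.R352.E Pool.Agent.R352.Q MvPolynomial

/-- the joint measure -/
theorem joint_ite (S : Finset (ℕ × Option ℚ)) (b : ℕ → Option ℚ)
    (hS : ∀ p ∈ S, 2 ≤ p.1 ∧ p.2 ≠ b p.1 ∧ (∀ x, p.2 = some x → 0 < x) ∧ (∀ x, b p.1 = some x → 0 < x))
    (A : Finset ℕ) : ∀ d : ℕ, ∃ c : ℝ, 0 < c ∧ ∃ κ : ℕ,
    ∀ (P : ℕ → MvPolynomial (Fin 2) ℤ) (Q : MvPolynomial (Option S) ℤ),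
      (∀ k ∈ A, P k ≠ 0) → Q ≠ 0 → (∀ k ∈ A, (P k).totalDegree ≤ d) → Q.totalDegree ≤ d → ∀ H : ℝ, 1 ≤ H →
      (∀ k ∈ A, ∀ s, |(((P k).coeff s : ℤ) : ℝ)| ≤ H) → (∀ s, |((Q.coeff s : ℤ) : ℝ)| ≤ H) →
      (∃ k ∈ A, c / H ^ κ ≤ |aeval ![wv k (b k), Real.exp 1] (P k)|) ∨
        c / H ^ κ ≤ |aeval (fun o : Option S => o.elim (Real.exp 1) (fun p => if p.1.1 ∈ A then wv p.1.1 p.1.2 else
          wv p.1.1 (b p.1.1) - wv p.1.1 p.1.2)) Q| := by
  classical
  intro d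
  obtain ⟨c, hc, κ, h1⟩ := joint_aux S b hS A d
  refine ⟨c, hc, κ, fun P Q hP hQ hPd hQd H hH hPH hQH => ?_⟩
  obtain ⟨q, hq⟩ : ∃ q, q = |aeval (fun o : Option S => o.elim (Real.exp 1) (fun p => if p.1.1 ∈ A then
    wv p.1.1 p.1.2 else wv p.1.1 (b p.1.1) - wv p.1.1 p.1.2)) Q| := ⟨_, rfl⟩
  obtain ⟨W, hW⟩ : ∃ W, W = insert q (A.image fun k => |aeval ![wv k (b k), Real.exp 1] (P k)|) := ⟨_, rfl⟩
  have hne : W.Nonempty := by rw [hW]; exact Finset.insert_nonempty _ _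
  have hmax := W.max'_mem hne
  have h2 := h1 P Q hP hQ hPd hQd H hH hPH hQH (W.max' hne)
    (fun k hk => W.le_max' _ (by rw [hW]; exact Finset.mem_insert_of_mem (Finset.mem_image_of_mem _ hk)))
    (by
      rw [← hq]
      exact W.le_max' _ (by rw [hW]; exact Finset.mem_insert_self _ _))
  have hmem : ∀ x ∈ W, x = q ∨ ∃ k ∈ A, |aeval ![wv k (b k), Real.exp 1] (P k)| = x := by
    intro x hx
    rw [hW, Finset.mem_insert, Finset.mem_image] at hx
    exact hx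
  rw [← hq]
  rcases hmem _ hmax with h3 | ⟨k, hk, h3⟩
  · right
    rw [h3] at h2
    exact h2
  · left
    refine ⟨k, hk, ?_⟩
    rw [h3]
    exact h2

/-- the joint measure, with numbers `C_k(x)` for the other `k` -/
theorem joint_final (A : Finset ℕ) (b : ℕ → Option ℚ) (S : Finset (ℕ × Option ℚ)) (T : Finset (ℕ × ℚ))
    (hA : ∀ k ∈ A, 2 ≤ k ∧ ∀ x, b k = some x → 0 < x)
    (hS : ∀ p ∈ S, p.1 ∈ A ∧ p.2 ≠ b p.1 ∧ ∀ x, p.2 = some x → 0 < x)
    (hT : ∀ q ∈ T, 2 ≤ q.1 ∧ q.1 ∉ A ∧ 0 < q.2) : ∀ d : ℕ, ∃ c : ℝ, 0 < c ∧ ∃ κ : ℕ,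
    ∀ (P : ℕ → MvPolynomial (Fin 2) ℤ) (Q : MvPolynomial (Option (S ⊕ T)) ℤ),
      (∀ k ∈ A, P k ≠ 0) → Q ≠ 0 → (∀ k ∈ A, (P k).totalDegree ≤ d) → Q.totalDegree ≤ d → ∀ H : ℝ, 1 ≤ H →
      (∀ k ∈ A, ∀ s, |(((P k).coeff s : ℤ) : ℝ)| ≤ H) → (∀ s, |((Q.coeff s : ℤ) : ℝ)| ≤ H) →
      (∃ k ∈ A, c / H ^ κ ≤ |aeval ![wv k (b k), Real.exp 1] (P k)|) ∨
        c / H ^ κ ≤ |aeval (fun o : Option (S ⊕ T) => o.elim (Real.exp 1)
          (Sum.elim (fun p => wv p.1.1 p.1.2) (fun q => Zk q.1.1 q.1.2))) Q| := by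
  classical
  intro d
  obtain ⟨S', hS'⟩ : ∃ S' : Finset (ℕ × Option ℚ), S' = S ∪ T.image (fun q => (q.1, some q.2)) := ⟨_, rfl⟩
  have hSS' : ∀ p ∈ S, p ∈ S' := fun p hp => by rw [hS']; exact Finset.mem_union_left _ hp
  have hTS' : ∀ q ∈ T, (q.1, some q.2) ∈ S' := fun q hq => by
    rw [hS']; exact Finset.mem_union_right _ (Finset.mem_image_of_mem _ hq)
  obtain ⟨b', hb'⟩ : ∃ b' : ℕ → Option ℚ, b' = fun k => if k ∈ A then b k else none := ⟨_, rfl⟩
  have hb1 : ∀ k ∈ A, b' k = b k := fun k hk => by rw [hb']; exact if_pos hk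
  have hb2 : ∀ k, k ∉ A → b' k = none := fun k hk => by rw [hb']; exact if_neg hk
  obtain ⟨c, hc, κ, h1⟩ := joint_ite S' b' (by
    intro p hp
    rw [hS', Finset.mem_union, Finset.mem_image] at hp
    rcases hp with hp | ⟨q, hq, rfl⟩
    · obtain ⟨h2, h3, h4⟩ := hS p hp
      rw [hb1 _ h2]
      exact ⟨(hA _ h2).1, h3, h4, (hA _ h2).2⟩
    · obtain ⟨h2, h3, h4⟩ := hT q hq
      refine ⟨h2, ?_, ?_, ?_⟩
      · rw [hb2 _ h3]; simp
      · intro x hx
        simp only [Option.some.injEq] at hx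
        rw [← hx]; exact h4
      · intro x hx
        rw [hb2 _ h3] at hx
        exact absurd hx (by simp)) A d
  refine ⟨c, hc, κ, fun P Q hP hQ hPd hQd H hH hPH hQH => ?_⟩
  let g₀ : S ⊕ T → S' := Sum.elim (fun p => ⟨p.1, hSS' p.1 p.2⟩) (fun q => ⟨(q.1.1, some q.1.2), hTS' q.1 q.2⟩)
  have hg₀ : Function.Injective g₀ := by
    rintro (p | q) (p' | q') h
    · have h2 := congrArg Subtype.val h
      exact congrArg Sum.inl (Subtype.ext h2)
    · exfalso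
      have h2 : p.1 = (q'.1.1, some q'.1.2) := congrArg Subtype.val h
      have h3 := (hS p.1 p.2).1
      rw [h2] at h3
      exact (hT q'.1 q'.2).2.1 h3
    · exfalso
      have h2 : (q.1.1, some q.1.2) = p'.1 := congrArg Subtype.val h
      have h3 := (hS p'.1 p'.2).1
      rw [← h2] at h3
      exact (hT q.1 q.2).2.1 h3
    · have h2 : (q.1.1, some q.1.2) = (q'.1.1, some q'.1.2) := congrArg Subtype.val h
      simp only [Prod.mk.injEq, Option.some.injEq] at h2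
      exact congrArg Sum.inr (Subtype.ext (Prod.ext h2.1 h2.2))
  have hg : Function.Injective (Option.map g₀) := Option.map_injective hg₀
  have h2 := h1 P (rename (Option.map g₀) Q) hP (rename_ne hg hQ) hPd ((totalDegree_rename_le _ _).trans hQd) H hH hPH
    (rename_coeff_le hg (by linarith) hQH)
  rw [aeval_rename] at h2
  rcases h2 with ⟨k, hk, h3⟩ | h3
  · left
    refine ⟨k, hk, ?_⟩
    rw [hb1 k hk] at h3
    exact h3
  · right
    convert h3 using 4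
    funext o
    rcases o with _ | p | q
    · rfl
    · have h4 := (hS p.1 p.2).1
      show wv p.1.1 p.1.2 = if p.1.1 ∈ A then wv p.1.1 p.1.2 else _
      rw [if_pos h4]
    · have h4 := (hT q.1 q.2).2.1
      show Zk q.1.1 q.1.2 = if q.1.1 ∈ A then _ else wv q.1.1 (b' q.1.1) - wv q.1.1 (some q.1.2)
      rw [if_neg h4, hb2 _ h4, wv, wv]
      simp only [Option.elim]
      rw [Rk]
      ring

/-- the joint measure for one zeta value -/
theorem joint_one {k : ℕ} (hk : 2 ≤ k) (a : Option ℚ) (X : Finset (Option ℚ)) (ha : ∀ x, a = some x → 0 < x)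
    (hX : ∀ s ∈ X, ∀ x, s = some x → 0 < x) (haX : a ∉ X) :
    JM ![wv k a, Real.exp 1] (fun o : Option X => o.elim (Real.exp 1) (fun s => wv k s)) := by
  classical
  intro d
  obtain ⟨S, hS⟩ : ∃ S : Finset (ℕ × Option ℚ), S = X.image (fun s => (k, s)) := ⟨_, rfl⟩
  have hXS : ∀ s ∈ X, (k, s) ∈ S := fun s hs => by rw [hS]; exact Finset.mem_image_of_mem _ hs
  obtain ⟨c, hc, m, h1⟩ := joint_final {k} (fun _ => a) S ∅ (by
    intro k' hk'
    rw [Finset.mem_singleton.1 hk']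
    exact ⟨hk, ha⟩) (by
    intro p hp
    rw [hS, Finset.mem_image] at hp
    obtain ⟨s, hs, rfl⟩ := hp
    refine ⟨Finset.mem_singleton_self _, ?_, hX s hs⟩
    rintro rfl
    exact haX hs) (fun q hq => absurd hq (Finset.notMem_empty q)) d
  refine ⟨c, hc, m, fun P Q hP hQ hPd hQd H hH hPH hQH => ?_⟩
  let g₀ : X → S ⊕ (∅ : Finset (ℕ × ℚ)) := fun s => Sum.inl ⟨(k, s.1), hXS s.1 s.2⟩
  have hg₀ : Function.Injective g₀ := by
    intro s s' h
    have h2 := congrArg Subtype.val (Sum.inl_injective h)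
    simp only [Prod.mk.injEq, true_and] at h2
    exact Subtype.ext h2
  have hg : Function.Injective (Option.map g₀) := Option.map_injective hg₀
  have h2 := h1 (fun _ => P) (rename (Option.map g₀) Q) (fun _ _ => hP) (rename_ne hg hQ) (fun _ _ => hPd)
    ((totalDegree_rename_le _ _).trans hQd) H hH (fun _ _ => hPH) (rename_coeff_le hg (by linarith) hQH)
  rw [aeval_rename] at h2
  rcases h2 with ⟨k', hk', h3⟩ | h3
  · left
    rw [Finset.mem_singleton.1 hk'] at h3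
    exact h3
  · right
    convert h3 using 4
    funext o
    rcases o with _ | s
    · rfl
    · rfl

end Pool.Agent.E8helper79.ZM
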