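import Pool.Agent.R352.E.Fin
import Pool.Agent.E8helper79.ZM.Det

/-!
# Measure of linear independence for values of E-functions
-/

set_option autoImplicit false

open PowerSeries Finset.HasAntidiagonal

namespace Pool.Agent.E8helper79.ZM

open Pool.Agent.Y113 Pool.Agent.R352.E

/-- choice of the parameter `ν` -/
lemma exists_nu (ν0 : ℕ) (h3 : 3 ≤ ν0) (M : ℝ) (hM : 1 ≤ M) :
    ∃ ν : ℕ, ν0 ≤ ν ∧ M ≤ (ν : ℝ) ^ ν ∧ (ν : ℝ) ^ ν ≤ (ν0 : ℝ) ^ ν0 * M ^ 3 := by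
  classical
  have hex : ∃ ν : ℕ, ν0 ≤ ν ∧ M ≤ (ν : ℝ) ^ ν := by
    obtain ⟨n, hn⟩ := exists_nat_ge M
    refine ⟨max n ν0, le_max_right _ _, ?_⟩
    have h1 : (1 : ℝ) ≤ ((max n ν0 : ℕ) : ℝ) := by
      exact_mod_cast (show 1 ≤ max n ν0 from le_trans (by omega) (le_max_right n ν0))
    calc M ≤ n := hn
      _ ≤ ((max n ν0 : ℕ) : ℝ) := by exact_mod_cast le_max_left _ _
      _ = ((max n ν0 : ℕ) : ℝ) ^ 1 := (pow_one _).symm
      _ ≤ _ := pow_le_pow_right₀ h1 (le_trans (by omega) (le_max_right n ν0))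
  obtain ⟨h4, h5⟩ := Nat.find_spec hex
  have h6 : ∀ m, m < Nat.find hex → ¬ (ν0 ≤ m ∧ M ≤ (m : ℝ) ^ m) := fun m hm => Nat.find_min hex hm
  generalize Nat.find hex = ν at h4 h5 h6
  refine ⟨ν, h4, h5, ?_⟩
  have hM3 : 1 ≤ M ^ 3 := one_le_pow₀ hM
  have hν0 : (1 : ℝ) ≤ (ν0 : ℝ) ^ ν0 := one_le_pow₀ (by exact_mod_cast (by omega : 1 ≤ ν0))
  rcases h4.eq_or_lt with h7 | h7
  · rw [← h7]
    exact le_mul_of_one_le_right (by linarith) hM3
  · have h8 := h6 (ν - 1) (by omega)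
    have h9 : ((ν - 1 : ℕ) : ℝ) ^ (ν - 1) < M := by
      by_contra h10
      exact h8 ⟨by omega, not_lt.1 h10⟩
    have h11 : ν ^ ν ≤ ((ν - 1) ^ (ν - 1)) ^ 3 := by
      obtain ⟨μ, rfl⟩ : ∃ μ, ν = μ + 1 := ⟨ν - 1, by omega⟩
      simp only [Nat.add_sub_cancel]
      calc (μ + 1) ^ (μ + 1) ≤ (μ ^ 2) ^ (μ + 1) := Nat.pow_le_pow_left (by nlinarith) _
        _ = μ ^ (2 * (μ + 1)) := by rw [← pow_mul]
        _ ≤ μ ^ (μ * 3) := Nat.pow_le_pow_right (by omega) (by omega)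
        _ = _ := by rw [pow_mul]
    have h12 : (ν : ℝ) ^ ν ≤ (((ν - 1 : ℕ) : ℝ) ^ (ν - 1)) ^ 3 := by exact_mod_cast h11
    calc (ν : ℝ) ^ ν ≤ (((ν - 1 : ℕ) : ℝ) ^ (ν - 1)) ^ 3 := h12
      _ ≤ M ^ 3 := pow_le_pow_left₀ (by positivity) h9.le 3
      _ ≤ _ := le_mul_of_one_le_left (by positivity) hν0

theorem E_meas {N q : ℕ} {C : ℝ} {y : Fin N → ℚ⟦X⟧} (hE : ESys q C y) (i₀ : Fin N) (h1 : y i₀ = 1)
    (hLI : LinearIndependent (Polynomial ℚ) y) :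
    ∃ c : ℝ, 0 < c ∧ ∃ κ : ℕ, ∀ a : Fin N → ℤ, a ≠ 0 → ∀ A : ℝ, 1 ≤ A → (∀ i, |(a i : ℝ)| ≤ A) →
      c / A ^ κ ≤ |∑ i, (a i : ℝ) * ev 1 (y i)| := by
  have hC := hE.one_le
  have hNpos : 0 < N := i₀.pos
  -- the case N = 1
  rcases Nat.lt_or_ge N 2 with hN | hN
  · have hN1 : N = 1 := by omega
    subst hN1
    refine ⟨1, one_pos, 0, fun a ha A hA1 hA => ?_⟩
    have hi : ∀ j : Fin 1, j = i₀ := fun j => Subsingleton.elim _ _
    have h2 : ∑ i, (a i : ℝ) * ev 1 (y i) = (a i₀ : ℝ) := by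
      rw [Fin.sum_univ_one]
      rw [hi 0, h1, ev_one, mul_one]
    rw [h2, pow_zero, div_one]
    have h3 : a i₀ ≠ 0 := by
      intro h
      apply ha
      funext i
      rw [hi i, h]; rfl
    exact_mod_cast Int.one_le_abs h3
  obtain ⟨B, hB⟩ := hE.der
  have hq1 : (1 : ℝ) ≤ q := by exact_mod_cast hE.hq
  obtain ⟨c₁, hc₁⟩ := rank_nab (T := TQ q) (B := fun i j => (B i j).map (Int.castRingHom ℚ)) hB hLI i₀ h1 1
    one_ne_zero (by
      simp only [TQ, Polynomial.eval_mul, Polynomial.eval_C, Polynomial.eval_X, mul_one]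
      exact_mod_cast (by have := hE.hq; omega : q ≠ 0))
  obtain ⟨b, hb, hBb⟩ : ∃ b : ℕ, 1 ≤ b ∧ ∀ i j, (B i j).natDegree ≤ b := by
    refine ⟨1 + ∑ i, ∑ j, (B i j).natDegree, by omega, fun i j => ?_⟩
    have h2 : (B i j).natDegree ≤ ∑ j, (B i j).natDegree :=
      Finset.single_le_sum (f := fun j => (B i j).natDegree) (fun _ _ => Nat.zero_le _) (Finset.mem_univ j)
    have h3 : ∑ j, (B i j).natDegree ≤ ∑ i, ∑ j, (B i j).natDegree :=
      Finset.single_le_sum (f := fun i => ∑ j, (B i j).natDegree) (fun _ _ => Nat.zero_le _) (Finset.mem_univ i)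
    omega
  obtain ⟨β, hβ0, hβ⟩ : ∃ β : ℝ, 0 ≤ β ∧ ∀ j, ∑ i, l1 (B i j) ≤ β := by
    refine ⟨∑ j, ∑ i, l1 (B i j), Finset.sum_nonneg fun _ _ => Finset.sum_nonneg fun _ _ => l1_nonneg _, fun j => ?_⟩
    exact Finset.single_le_sum (f := fun j => ∑ i, l1 (B i j))
      (fun _ _ => Finset.sum_nonneg fun _ _ => l1_nonneg _) (Finset.mem_univ j)
  -- parameters
  set L : ℕ := 2 * N + 1 with hL
  have hNL : 2 ≤ N * L := by
    calc 2 ≤ N := hN
      _ = N * 1 := (mul_one N).symm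
      _ ≤ N * L := Nat.mul_le_mul_left _ (by omega)
  set g1 : ℝ := 2 * ((L + 2 * b + 1 : ℕ) : ℝ) with hg1
  set g2 : ℝ := q * ((L + 2 * b : ℕ) : ℝ) + β with hg2
  set g3 : ℝ := ((2 * (N * (L + 1) : ℕ)) * (2 * C) ^ (2 * (N * L))) ^ (N * L) with hg3
  set G1 : ℝ := g1 * (g2 ^ 2 * ((L : ℝ) ^ L * g3)) with hG1
  set G2 : ℝ := (L : ℝ) ^ L * g3 * (q : ℝ) ^ 2 * 4 * (2 * C * Real.exp 1) ^ (N * L - 1) with hG2
  set c2 : ℝ := N * C * Real.exp (2 * C * Real.exp 1) with hc2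
  set G : ℝ := G1 ^ (N - 2) * G2 with hG
  set c3 : ℝ := N * N.factorial * c2 with hc3
  have hG0 : 0 ≤ G := by positivity
  have hG10 : 0 ≤ G1 := by positivity
  have hc30 : 0 ≤ c3 := by positivity
  have hkey : ∀ (a : Fin N → ℤ), a ≠ 0 → ∀ A : ℝ, (∀ i, |(a i : ℝ)| ≤ A) → ∀ ν : ℕ, c₁ < ν →
      1 ≤ c3 * A * G ^ ν / (ν : ℝ) ^ ν + N.factorial * (G1 ^ ν * ((ν : ℝ) ^ ν) ^ (L + 2)) ^ (N - 1) *
        |∑ i, (a i : ℝ) * ev 1 (y i)| := by
    intro a hane A hAi ν hν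
    have hA0 : 0 ≤ A := (abs_nonneg _).trans (hAi i₀)
    have hν1 : 1 ≤ ν := by omega
    have hν1' : (1 : ℝ) ≤ ν := by exact_mod_cast hν1
    obtain ⟨n, hn⟩ : ∃ n, n = L * ν := ⟨_, rfl⟩
    obtain ⟨m₀, hm₀⟩ : ∃ m₀, m₀ = (N * L - 1) * ν := ⟨_, rfl⟩
    obtain ⟨K, hK⟩ : ∃ K, K = 2 * ν := ⟨_, rfl⟩
    have hm₀' : m₀ + ν = N * n := by
      have h2 : N * n = N * L * ν := by rw [hn]; ring
      rw [h2, hm₀, Nat.sub_mul, one_mul]
      have : ν ≤ N * L * ν := Nat.le_mul_of_pos_left ν (by omega)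
      omega
    have h := core' hE i₀ h1 hB hb hBb hβ hβ0 hc₁ a hane _ (abs_nonneg _) le_rfl A hAi L ν n m₀ K (by omega)
      hν hn hm₀' hK _ rfl
    set A₀ : ℝ := ((N * (n + 1) : ℕ) * (2 * C) ^ (2 * m₀ + 1)) ^ (N * L) with hA₀
    have hA₀0 : 0 ≤ A₀ := by positivity
    have hA₀g : A₀ ≤ g3 ^ ν := A0_le hC hNpos hν1 hn hm₀'
    obtain ⟨u, hu⟩ : ∃ u : ℝ, u = (ν : ℝ) ^ ν := ⟨_, rfl⟩
    rw [← hu]
    have hu1 : 1 ≤ u := by rw [hu]; exact one_le_pow₀ hν1'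
    have hu0 : 0 < u := by linarith
    have hnf : (n.factorial : ℝ) ≤ ((L : ℝ) ^ L) ^ ν * u ^ L := by rw [hn, hu]; exact fac_le L ν
    -- X
    have hX : ((n + K * b : ℕ) + 1) * ((q * (n + K * b : ℕ) + β) ^ K * (n.factorial * A₀)) ≤ G1 ^ ν * u ^ (L + 2) := by
      have hnK : n + K * b = (L + 2 * b) * ν := by rw [hn, hK]; ring
      have h2 : (((n + K * b : ℕ) : ℝ) + 1) ≤ g1 ^ ν := by
        have h3 : (1 : ℝ) ≤ ((L + 2 * b + 1 : ℕ) : ℝ) := by exact_mod_cast (show 1 ≤ L + 2 * b + 1 by omega)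
        refine le_trans ?_ (lin_le_pow h3 hν1)
        rw [hnK]
        push_cast
        nlinarith
      have h4 : (q * ((n + K * b : ℕ) : ℝ) + β) ^ K ≤ (g2 ^ 2) ^ ν * u ^ 2 := by
        have h5 : q * ((n + K * b : ℕ) : ℝ) + β ≤ g2 * ν := by
          rw [hnK, hg2]
          push_cast
          nlinarith
        calc (q * ((n + K * b : ℕ) : ℝ) + β) ^ K ≤ (g2 * ν) ^ K := pow_le_pow_left₀ (by positivity) h5 K
          _ = (g2 ^ 2) ^ ν * u ^ 2 := by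
            rw [hK, hu, mul_pow, ← pow_mul, ← pow_mul, mul_comm ν 2]
      calc ((n + K * b : ℕ) + 1) * ((q * (n + K * b : ℕ) + β) ^ K * (n.factorial * A₀))
          ≤ g1 ^ ν * (((g2 ^ 2) ^ ν * u ^ 2) * ((((L : ℝ) ^ L) ^ ν * u ^ L) * g3 ^ ν)) := by
            refine mul_le_mul h2 ?_ (by positivity) (by positivity)
            refine mul_le_mul h4 ?_ (by positivity) (by positivity)
            exact mul_le_mul hnf hA₀g hA₀0 (by positivity)
        _ = G1 ^ ν * u ^ (L + 2) := by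
            rw [hG1, mul_pow g1, mul_pow (g2 ^ 2), mul_pow ((L : ℝ) ^ L), pow_add u]
            generalize g1 ^ ν = x1
            generalize (g2 ^ 2) ^ ν = x2
            generalize ((L : ℝ) ^ L) ^ ν = x3
            generalize g3 ^ ν = x4
            ring
    have hLL : n.factorial * (N * A₀ * C) * (q : ℝ) ^ K * K.factorial *
        ((2 * C * Real.exp 1) ^ m₀ / m₀.factorial * Real.exp (2 * C * Real.exp 1)) ≤
        c2 * G2 ^ ν * (u ^ (L + 2) / u ^ (N * L - 2)) := by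
      have h2 : (K.factorial : ℝ) ≤ (4 : ℝ) ^ ν * u ^ 2 := by
        rw [hK]
        refine (fac_le 2 ν).trans (le_of_eq ?_)
        rw [hu]
        norm_num
      have h3 : (q : ℝ) ^ K = ((q : ℝ) ^ 2) ^ ν := by rw [hK, pow_mul]
      have h4 : (2 * C * Real.exp 1) ^ m₀ = ((2 * C * Real.exp 1) ^ (N * L - 1)) ^ ν := by rw [hm₀, pow_mul]
      have h5 : u ^ (N * L - 2) ≤ (m₀.factorial : ℝ) := by
        have := fac_ge (R := N * L - 1) (ν := ν) (by omega)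
        rw [hm₀, hu, show N * L - 2 = N * L - 1 - 1 by omega]
        exact this
      have h6 : ((2 * C * Real.exp 1) ^ m₀ / m₀.factorial) ≤ ((2 * C * Real.exp 1) ^ (N * L - 1)) ^ ν / u ^ (N * L - 2) := by
        rw [h4]
        exact div_le_div_of_nonneg_left (by positivity) (by positivity) h5
      calc n.factorial * (N * A₀ * C) * (q : ℝ) ^ K * K.factorial *
            ((2 * C * Real.exp 1) ^ m₀ / m₀.factorial * Real.exp (2 * C * Real.exp 1))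
          ≤ (((L : ℝ) ^ L) ^ ν * u ^ L) * (N * g3 ^ ν * C) * ((q : ℝ) ^ 2) ^ ν * ((4 : ℝ) ^ ν * u ^ 2) *
            (((2 * C * Real.exp 1) ^ (N * L - 1)) ^ ν / u ^ (N * L - 2) * Real.exp (2 * C * Real.exp 1)) := by
            rw [← h3]
            refine mul_le_mul ?_ ?_ (by positivity) (by positivity)
            · refine mul_le_mul ?_ h2 (by positivity) (by positivity)
              refine mul_le_mul_of_nonneg_right ?_ (by positivity)
              refine mul_le_mul hnf ?_ (by positivity) (by positivity)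
              refine mul_le_mul_of_nonneg_right ?_ (by positivity)
              exact mul_le_mul_of_nonneg_left hA₀g (by positivity)
            · exact mul_le_mul_of_nonneg_right h6 (by positivity)
        _ = c2 * G2 ^ ν * (u ^ (L + 2) / u ^ (N * L - 2)) := by
            rw [hG2, hc2, mul_pow, mul_pow, mul_pow, mul_pow, pow_add]; ring
    have hcomb : (1 : ℝ) ≤ N * (N.factorial * (A * (G1 ^ ν * u ^ (L + 2)) ^ (N - 2)) *
        (c2 * G2 ^ ν * (u ^ (L + 2) / u ^ (N * L - 2)))) + N.factorial * (G1 ^ ν * u ^ (L + 2)) ^ (N - 1) *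
        |∑ i, (a i : ℝ) * ev 1 (y i)| := by
      refine h.trans ?_
      refine add_le_add ?_ ?_
      · refine mul_le_mul_of_nonneg_left ?_ (by positivity)
        refine mul_le_mul ?_ hLL (by positivity) (by positivity)
        refine mul_le_mul_of_nonneg_left ?_ (by positivity)
        refine mul_le_mul_of_nonneg_left ?_ hA0
        exact pow_le_pow_left₀ (by positivity) hX _
      · refine mul_le_mul_of_nonneg_right ?_ (abs_nonneg _)
        refine mul_le_mul_of_nonneg_left ?_ (by positivity)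
        exact pow_le_pow_left₀ (by positivity) hX _
    have hexp : u ^ (N * L - 2) = (u ^ (L + 2)) ^ (N - 2) * u ^ (L + 2) * u := by
      rw [← pow_mul, ← pow_add, ← pow_succ]
      congr 1
      obtain ⟨M, rfl⟩ : ∃ M, N = M + 2 := ⟨N - 2, by omega⟩
      simp only [Nat.add_sub_cancel]
      have e1 : (M + 2) * L = (L + 2) * M + (L + 2) + 1 + 2 := by
        rw [hL]; ring
      omega
    have h7 : N * (N.factorial * (A * (G1 ^ ν * u ^ (L + 2)) ^ (N - 2)) *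
        (c2 * G2 ^ ν * (u ^ (L + 2) / u ^ (N * L - 2)))) = c3 * A * G ^ ν / u := by
      rw [hexp, hc3, hG, mul_pow (G1 ^ ν), mul_pow (G1 ^ (N - 2)), ← pow_mul G1, ← pow_mul G1, mul_comm ν (N - 2)]
      field_simp
    rw [h7] at hcomb
    exact hcomb
  -- choice of the parameters
  obtain ⟨ν0, hν01, hν02, hν03, hν04⟩ : ∃ ν0 : ℕ, c₁ < ν0 ∧ 3 ≤ ν0 ∧ G ^ 2 ≤ ν0 ∧ G1 ≤ ν0 := by
    obtain ⟨n1, hn1⟩ := exists_nat_ge (G ^ 2)
    obtain ⟨n2, hn2⟩ := exists_nat_ge G1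
    refine ⟨c₁ + 3 + n1 + n2, by omega, by omega, ?_, ?_⟩
    · refine hn1.trans ?_
      exact_mod_cast (by omega : n1 ≤ c₁ + 3 + n1 + n2)
    · refine hn2.trans ?_
      exact_mod_cast (by omega : n2 ≤ c₁ + 3 + n1 + n2)
  set B0 : ℝ := max (2 * c3) 1 with hB0
  have hB01 : 1 ≤ B0 := le_max_right _ _
  have hB0c : 2 * c3 ≤ B0 := le_max_left _ _
  set E : ℕ := (L + 3) * (N - 1) with hEe
  set U0 : ℝ := (ν0 : ℝ) ^ ν0 with hU0
  have hU01 : 1 ≤ U0 := one_le_pow₀ (by exact_mod_cast (by omega : 1 ≤ ν0))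
  refine ⟨1 / (2 * N.factorial * (U0 * B0 ^ 6) ^ E), by positivity, 6 * E, fun a ha A hA1 hA => ?_⟩
  have hA0 : 0 < A := by linarith
  have hBA : 1 ≤ B0 * A := one_le_mul_of_one_le_of_one_le hB01 hA1
  obtain ⟨ν, hν1, hν2, hν3⟩ := exists_nu ν0 hν02 ((B0 * A) ^ 2) (one_le_pow₀ hBA)
  have h := hkey a ha A hA ν (by omega)
  have hνR : (ν0 : ℝ) ≤ ν := by exact_mod_cast hν1
  obtain ⟨u, hu⟩ : ∃ u : ℝ, u = (ν : ℝ) ^ ν := ⟨_, rfl⟩
  rw [← hu] at h hν2 hν3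
  have hν1' : (1 : ℝ) ≤ ν := by exact_mod_cast (by omega : 1 ≤ ν)
  have hu1 : 1 ≤ u := by rw [hu]; exact one_le_pow₀ hν1'
  have hu0 : 0 < u := by linarith
  have hGu : (G ^ ν) ^ 2 ≤ u := by
    rw [← pow_mul, mul_comm ν 2, pow_mul, hu]
    exact pow_le_pow_left₀ (by positivity) (hν03.trans hνR) ν
  have hG1u : G1 ^ ν ≤ u := by
    rw [hu]
    exact pow_le_pow_left₀ (by positivity) (hν04.trans hνR) ν
  have hfirst : c3 * A * G ^ ν / u ≤ 1 / 2 := by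
    rw [div_le_div_iff₀ hu0 two_pos]
    have h2 : (c3 * A * G ^ ν * 2) ^ 2 ≤ u ^ 2 := by
      have h3 : (2 * c3 * A) ^ 2 ≤ (B0 * A) ^ 2 := by
        apply pow_le_pow_left₀ (by positivity)
        exact mul_le_mul_of_nonneg_right hB0c hA0.le
      calc (c3 * A * G ^ ν * 2) ^ 2 = (2 * c3 * A) ^ 2 * (G ^ ν) ^ 2 := by ring
        _ ≤ u * u := mul_le_mul (h3.trans hν2) hGu (by positivity) hu0.le
        _ = u ^ 2 := by ring
    rw [one_mul]
    exact (abs_le_of_sq_le_sq' h2 hu0.le).2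
  have hsecond : 1 / 2 ≤ N.factorial * (G1 ^ ν * u ^ (L + 2)) ^ (N - 1) * |∑ i, (a i : ℝ) * ev 1 (y i)| := by
    linarith
  have h4 : (G1 ^ ν * u ^ (L + 2)) ^ (N - 1) ≤ (U0 * B0 ^ 6) ^ E * A ^ (6 * E) := by
    calc (G1 ^ ν * u ^ (L + 2)) ^ (N - 1) ≤ (u * u ^ (L + 2)) ^ (N - 1) := by
          apply pow_le_pow_left₀ (by positivity)
          exact mul_le_mul_of_nonneg_right hG1u (by positivity)
      _ = u ^ E := by
          rw [hEe, ← pow_succ', ← pow_mul]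
      _ ≤ (U0 * ((B0 * A) ^ 2) ^ 3) ^ E := pow_le_pow_left₀ hu0.le hν3 _
      _ = _ := by
          rw [pow_mul A, ← mul_pow]
          congr 1
          ring
  set Λ := |∑ i, (a i : ℝ) * ev 1 (y i)| with hΛ
  have hΛ0 : 0 ≤ Λ := abs_nonneg _
  rw [div_div, div_le_iff₀ (by positivity)]
  have h5 : 1 / 2 ≤ N.factorial * ((U0 * B0 ^ 6) ^ E * A ^ (6 * E)) * Λ := by
    refine hsecond.trans ?_
    refine mul_le_mul_of_nonneg_right ?_ hΛ0
    exact mul_le_mul_of_nonneg_left h4 (by positivity)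
  calc (1 : ℝ) = 2 * (1 / 2) := by norm_num
    _ ≤ 2 * (N.factorial * ((U0 * B0 ^ 6) ^ E * A ^ (6 * E)) * Λ) := mul_le_mul_of_nonneg_left h5 (by norm_num)
    _ = _ := by ring

end Pool.Agent.E8helper79.ZM
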