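import Pool.Agent.R352.E.Val
import Pool.Agent.E8helper79.ZM.Meas

/-!
# Measure of algebraic independence for values of E-functions of a tower
-/

set_option autoImplicit false
set_option linter.unusedSectionVars false
set_option linter.unusedSimpArgs false

open PowerSeries Finset.HasAntidiagonal

namespace Pool.Agent.E8helper79.ZM

open Pool.Agent.Y113 Pool.Agent.R352.E

/-- a measure of algebraic independence: for every degree `d`, the value of a nonzero integer polynomial of degree at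
most `d` and height at most `H` is at least `c / H ^ κ` -/
def PM {ι : Type} (θ : ι → ℝ) : Prop := ∀ d : ℕ, ∃ c : ℝ, 0 < c ∧ ∃ κ : ℕ, ∀ P : MvPolynomial ι ℤ, P ≠ 0 →
  P.totalDegree ≤ d → ∀ H : ℝ, 1 ≤ H → (∀ s, |((P.coeff s : ℤ) : ℝ)| ≤ H) → c / H ^ κ ≤ |MvPolynomial.aeval θ P|

lemma PM.comp {ι κ : Type} {θ : ι → ℝ} (h : PM θ) {g : κ → ι} (hg : Function.Injective g) : PM (fun j => θ (g j)) := by
  intro d
  obtain ⟨c, hc, κ', h1⟩ := h d
  refine ⟨c, hc, κ', fun P hP hd H hH hc2 => ?_⟩
  have h2 := h1 (MvPolynomial.rename g P) (fun h0 => hP (MvPolynomial.rename_injective g hg (h0.trans (map_zero _).symm)))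
    ((MvPolynomial.totalDegree_rename_le _ _).trans hd) H hH (fun s => by
      by_cases hs : ∃ u : κ →₀ ℕ, Finsupp.mapDomain g u = s
      · obtain ⟨u, rfl⟩ := hs
        rw [MvPolynomial.coeff_rename_mapDomain _ hg]
        exact hc2 u
      · rw [MvPolynomial.coeff_rename_eq_zero _ _ _ (fun u hu => absurd ⟨u, hu⟩ hs)]
        simp only [Int.cast_zero, abs_zero]
        linarith)
  rw [MvPolynomial.aeval_rename] at h2
  exact h2

section

variable {σ : Type} [Fintype σ] [LinearOrder σ] {t : Tw σ} {q : ℕ} {f : σ → ℚ⟦X⟧}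

/-- measure of linear independence of the values at `1` of the monomials -/
theorem val_meas (R : Real' t q f) {M J₀ : ℕ} (hM : ∀ v, v < t.w → t.m v ≤ M) (hM1 : 1 ≤ M) [Fintype (Idx t M J₀)] :
    ∃ c : ℝ, 0 < c ∧ ∃ κ : ℕ, ∀ a : Idx t M J₀ → ℤ, a ≠ 0 → ∀ A : ℝ, 1 ≤ A → (∀ s, |(a s : ℝ)| ≤ A) →
      c / A ^ κ ≤ |∑ s, (a s : ℝ) * ev 1 (mon f s.1)| := by
  classical
  set N := Fintype.card (Idx t M J₀) with hN
  let e : Fin N ≃ Idx t M J₀ := (Fintype.equivFin _).symm
  set y : Fin N → ℚ⟦X⟧ := fun i => mon f (e i).1 with hy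
  obtain ⟨C, hC, h1, h2⟩ := EF.common (y := y) (fun i => EF_mon R (e i).2.1)
  have hSys : ESys q C y :=
    { one_le := hC
      hq := R.hq
      size := h1
      den := h2
      der := by
        have h3 := fun i => deriv_Sp R hM hM1 (e i)
        choose B hB using h3
        refine ⟨fun i j => B i (e j), fun i => ?_⟩
        rw [hy, hB i, ← Equiv.sum_comp e] }
  have h0 : e (e.symm ⟨0, by simp⟩) = (⟨0, by simp⟩ : Idx t M J₀) := e.apply_symm_apply _
  obtain ⟨c, hc, κ, h3⟩ := E_meas hSys (e.symm ⟨0, by simp⟩) (by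
    rw [hy]
    simp only [h0]
    rw [mon_eq]; simp) ((mon_LI R).comp e e.injective)
  refine ⟨c, hc, κ, fun a ha A hA1 hA => ?_⟩
  have h4 := h3 (fun i => a (e i)) (fun h5 => ha (by
    funext s
    have := congrFun h5 (e.symm s)
    simpa using this)) A hA1 (fun i => hA _)
  rw [← Equiv.sum_comp e]
  exact h4

/-- measure of algebraic independence of the values at `1` -/
theorem val_PM (R : Real' t q f) : PM (fun i : {i : σ // i ≠ t.z} => ev 1 (f i.1)) := by
  classical
  obtain ⟨M, hM1, hM⟩ : ∃ M : ℕ, 1 ≤ M ∧ ∀ v, v < t.w → t.m v ≤ M := by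
    refine ⟨1 + ∑ v, t.m v, by omega, fun v _ => ?_⟩
    have := Finset.single_le_sum (f := fun v => t.m v) (fun _ _ => Nat.zero_le _) (Finset.mem_univ v)
    omega
  intro d
  set J₀ : ℕ := d + M * d with hJ₀
  have : Finite (Idx t M J₀) := Idx_finite t hM1
  let _ : Fintype (Idx t M J₀) := Fintype.ofFinite _
  obtain ⟨c, hc, κ, hmeas⟩ := val_meas R hM hM1 (J₀ := J₀)
  refine ⟨c, hc, κ, fun p hp hd H hH hcoef => ?_⟩
  set p' : MvPolynomial σ ℤ := MvPolynomial.rename Subtype.val p with hp'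
  have hinj : Function.Injective (MvPolynomial.rename (R := ℤ) (Subtype.val : {i : σ // i ≠ t.z} → σ)) :=
    MvPolynomial.rename_injective _ Subtype.val_injective
  have hp'0 : p' ≠ 0 := fun h => hp (hinj (h.trans (map_zero _).symm))
  have hval : MvPolynomial.aeval (fun i : σ => ev 1 (f i)) p' =
      MvPolynomial.aeval (fun i : {i : σ // i ≠ t.z} => ev 1 (f i.1)) p := by
    rw [hp', MvPolynomial.aeval_rename]
    rfl
  have hz : ∀ s ∈ p'.support, s t.z = 0 := by
    intro s hs
    have h1 := MvPolynomial.coeff_rename_ne_zero _ _ _ (MvPolynomial.mem_support_iff.1 hs)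
    obtain ⟨u, hu, _⟩ := h1
    rw [← hu]
    apply Finsupp.mapDomain_of_notMem_range
    rintro ⟨i, hi⟩
    exact i.2 hi
  have hcoef' : ∀ s, |((p'.coeff s : ℤ) : ℝ)| ≤ H := by
    intro s
    by_cases hs : ∃ u : {i : σ // i ≠ t.z} →₀ ℕ, Finsupp.mapDomain Subtype.val u = s
    · obtain ⟨u, rfl⟩ := hs
      rw [hp', MvPolynomial.coeff_rename_mapDomain _ Subtype.val_injective]
      exact hcoef u
    · rw [hp', MvPolynomial.coeff_rename_eq_zero _ _ _ (fun u hu => absurd ⟨u, hu⟩ hs)]
      simp only [Int.cast_zero, abs_zero]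
      linarith
  have hdeg : p'.totalDegree ≤ d := (MvPolynomial.totalDegree_rename_le _ _).trans hd
  have hmem : ∀ s ∈ p'.support, s t.z = 0 ∧ s t.w + M * ∑ v ∈ t.V, s v ≤ J₀ := by
    intro s hs
    refine ⟨hz s hs, ?_⟩
    have h1 : ∑ i, s i ≤ d := by
      have h2 := (MvPolynomial.le_totalDegree hs).trans hdeg
      rwa [Finsupp.sum_fintype _ _ (fun _ => rfl)] at h2
    have h3 : s t.w ≤ d := (Finset.single_le_sum (f := fun i => s i) (fun _ _ => Nat.zero_le _) (Finset.mem_univ t.w)).trans h1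
    have h4 : ∑ v ∈ t.V, s v ≤ d :=
      (Finset.sum_le_sum_of_subset (Finset.subset_univ t.V)).trans h1
    have h5 : M * ∑ v ∈ t.V, s v ≤ M * d := Nat.mul_le_mul_left _ h4
    omega
  have hm := hmeas (fun s => MvPolynomial.coeff s.1 p') (by
    intro h
    apply hp'0
    ext s
    rw [MvPolynomial.coeff_zero]
    by_cases hs : s ∈ p'.support
    · exact congrFun h ⟨s, hmem s hs⟩
    · exact MvPolynomial.notMem_support_iff.1 hs) H hH (fun s => hcoef' _)
  rw [← hval]
  convert hm using 2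
  have h1 : ∑ s : Idx t M J₀, ((MvPolynomial.coeff s.1 p' : ℤ) : ℝ) * ev 1 (mon f s.1) =
      ∑ s ∈ (Finset.univ : Finset (Idx t M J₀)).map ⟨Subtype.val, Subtype.val_injective⟩,
        ((MvPolynomial.coeff s p' : ℤ) : ℝ) * ev 1 (mon f s) := by
    rw [Finset.sum_map]; rfl
  rw [h1]
  have h2 : p'.support ⊆ (Finset.univ : Finset (Idx t M J₀)).map ⟨Subtype.val, Subtype.val_injective⟩ := by
    intro s hs
    rw [Finset.mem_map]
    exact ⟨⟨s, hmem s hs⟩, Finset.mem_univ _, rfl⟩
  rw [← Finset.sum_subset h2 (fun s _ hs => by rw [MvPolynomial.notMem_support_iff.1 hs, Int.cast_zero, zero_mul])]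
  conv_lhs => rw [MvPolynomial.as_sum p', map_sum]
  refine Finset.sum_congr rfl fun s _ => ?_
  rw [MvPolynomial.aeval_monomial, ev_mon R, Finsupp.prod_fintype _ _ (fun i => pow_zero _)]
  simp

end

/-- measure of algebraic independence of `exp (-1/q)` and the numbers `E_l (m_i / q)`, `1 ≤ l ≤ J` -/
theorem EE_PM (J k : ℕ) (mm : Fin k → ℕ) (hinj : Function.Injective mm) (hpos : ∀ i, 1 ≤ mm i) {q : ℕ} (hq : 1 ≤ q) :
    PM (fun o : Option (Fin J × Fin k) =>
      o.elim (Real.exp (-1 / q)) (fun p => EE (p.1 + 1) ((mm p.2 : ℝ) / q))) := by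
  have h1 := val_PM (real_tw J k mm hinj hpos hq)
  -- reindexing
  let g : Option (Fin J × Fin k) → {i : Sg J k // i ≠ (tw J k mm hinj hpos).z} := fun o =>
    match o with
    | none => ⟨toLex (Sum.inr 0), fun h => by
        have := Sum.inr_injective (toLex.injective h)
        exact absurd this (by decide)⟩
    | some p => ⟨toLex (Sum.inl (toLex (Fin.rev p.1, p.2))), fun h => Sum.inl_ne_inr (toLex.injective h)⟩
  have hg : Function.Injective g := by
    intro o o' h
    rcases o with _ | p <;> rcases o' with _ | p'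
    · rfl
    · exact absurd (toLex.injective (congrArg Subtype.val h)) Sum.inr_ne_inl
    · exact absurd (toLex.injective (congrArg Subtype.val h)) Sum.inl_ne_inr
    · have h2 := toLex.injective (Sum.inl_injective (toLex.injective (congrArg Subtype.val h)))
      have h3 := congrArg Prod.fst h2
      have h4 := congrArg Prod.snd h2
      simp only at h3 h4
      have h5 := Fin.rev_injective h3
      rw [Prod.ext h5 h4]
  have h2 := h1.comp hg
  convert h2 using 1
  funext o
  rcases o with _ | p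
  · show Real.exp (-1 / q) = ev 1 (wS q)
    rw [ev_wS]
  · show EE (p.1 + 1) ((mm p.2 : ℝ) / q) = ev 1 (ES (J - (Fin.rev p.1 : Fin J)) ((mm p.2 : ℚ) / q))
    rw [ev_ES _ _ _ hq]
    congr 1
    rw [Fin.val_rev]
    have := p.1.2
    omega

end Pool.Agent.E8helper79.ZM
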