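import Pool.Agent.R352.Q.Ind
import Pool.Agent.E8helper79.ZM.Val
import Pool.Agent.E8helper79.ZM.Len

/-!
# Transfer of a measure of algebraic independence, and the incomplete zeta values
-/

set_option autoImplicit false

open Set

namespace Pool.Agent.E8helper79.ZM

open Pool.Agent.R352.E Pool.Agent.R352.Q

lemma PM.ne_zero {ι : Type} {θ : ι → ℝ} (h : PM θ) {P : MvPolynomial ι ℤ} (hP : P ≠ 0) :
    MvPolynomial.aeval θ P ≠ 0 := by
  obtain ⟨c, hc, κ, h1⟩ := h P.totalDegree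
  have hl := len_nonneg P
  have h2 := h1 P hP le_rfl (1 + len P) (by linarith) (fun s => (abs_coeff_le_len P s).trans (by linarith))
  intro h3
  rw [h3, abs_zero] at h2
  have : 0 < c / (1 + len P) ^ κ := by positivity
  linarith

lemma aeval_ne_of_AI {ι : Type} {θ : ι → ℝ} (h : AlgebraicIndependent ℚ θ) {P : MvPolynomial ι ℤ} (hP : P ≠ 0) :
    MvPolynomial.aeval θ P ≠ 0 := by
  intro h1
  have h2 : MvPolynomial.aeval θ (MvPolynomial.map (algebraMap ℤ ℚ) P) = 0 := by
    rw [MvPolynomial.aeval_map_algebraMap, h1]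
  have h3 := algebraicIndependent_iff.1 h _ h2
  apply hP
  apply MvPolynomial.map_injective (algebraMap ℤ ℚ) (by simpa using Int.cast_injective)
  rw [h3, map_zero]

lemma PM.transfer {ι κ : Type} [Fintype κ] {θ : ι → ℝ} (h : PM θ) {η : κ → ℝ} (hη : AlgebraicIndependent ℚ η)
    (G D : κ → MvPolynomial ι ℤ) (hD : ∀ j, MvPolynomial.aeval θ (D j) ≠ 0)
    (hG : ∀ j, η j * MvPolynomial.aeval θ (D j) = MvPolynomial.aeval θ (G j)) : PM η := by
  classical
  intro d
  let T : (κ →₀ ℕ) → MvPolynomial ι ℤ := fun s => ∏ j, G j ^ s j * D j ^ (d - s j)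
  obtain ⟨d', L, hL, hfam⟩ := fam_bd T d
  obtain ⟨c, hc, κ', h1⟩ := h d'
  obtain ⟨δ, hδ⟩ : ∃ δ : ℝ, δ = ∏ j, MvPolynomial.aeval θ (D j) ^ d := ⟨_, rfl⟩
  have hδ0 : 0 < |δ| := abs_pos.2 (by
    rw [hδ]; exact Finset.prod_ne_zero_iff.2 fun j _ => pow_ne_zero _ (hD j))
  refine ⟨c / ((L + 1) ^ κ' * |δ|), by positivity, κ', fun P hP hd H hH hcoef => ?_⟩
  obtain ⟨h2, h3⟩ := hfam P hd H (by linarith) hcoef
  have hval : MvPolynomial.aeval θ (∑ s ∈ P.support, MvPolynomial.C (P.coeff s) * T s) =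
      δ * MvPolynomial.aeval η P := by
    rw [map_sum]
    conv_rhs => rw [MvPolynomial.as_sum P, map_sum, Finset.mul_sum]
    refine Finset.sum_congr rfl fun s hs => ?_
    have h5 : MvPolynomial.aeval θ (T s) = δ * ∏ j, η j ^ s j := by
      rw [hδ, ← Finset.prod_mul_distrib, map_prod]
      refine Finset.prod_congr rfl fun j _ => ?_
      rw [map_mul, map_pow, map_pow, ← hG]
      have h6 : s j ≤ d := mem_box.1 (support_box hd hs) j
      obtain ⟨r, hr⟩ := Nat.exists_eq_add_of_le h6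
      rw [hr, Nat.add_sub_cancel_left]
      ring
    rw [map_mul, h5, MvPolynomial.aeval_monomial, Finsupp.prod_fintype _ _ (fun i => pow_zero _),
      MvPolynomial.aeval_C]
    ring
  have hPη : MvPolynomial.aeval η P ≠ 0 := aeval_ne_of_AI hη hP
  generalize (∑ s ∈ P.support, MvPolynomial.C (P.coeff s) * T s) = Q at h2 h3 hval
  have hQ0 : Q ≠ 0 := by
    rintro rfl
    rw [map_zero] at hval
    exact mul_ne_zero (abs_pos.1 hδ0) hPη hval.symm
  have hLH : 1 ≤ (L + 1) * H := one_le_mul_of_one_le_of_one_le (by linarith) hH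
  have h4 := h1 Q hQ0 h2 ((L + 1) * H) hLH (fun s => (abs_coeff_le_len Q s).trans (h3.trans (by nlinarith)))
  rw [hval, abs_mul, mul_pow] at h4
  rw [div_div, div_le_iff₀ (by positivity)]
  rw [div_le_iff₀ (by positivity)] at h4
  calc c ≤ |δ| * |MvPolynomial.aeval η P| * ((L + 1) ^ κ' * H ^ κ') := h4
    _ = _ := by ring

lemma exists_frac {ι : Type} {θ : ι → ℝ} {x : ℝ} (hx : x ∈ IntermediateField.adjoin ℚ (range θ)) :
    ∃ G D : MvPolynomial ι ℤ, MvPolynomial.aeval θ D ≠ 0 ∧ x * MvPolynomial.aeval θ D = MvPolynomial.aeval θ G := by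
  induction hx using IntermediateField.adjoin_induction with
  | mem x hx =>
    obtain ⟨i, rfl⟩ := hx
    exact ⟨MvPolynomial.X i, 1, by simp, by simp⟩
  | algebraMap r =>
    refine ⟨MvPolynomial.C r.num, MvPolynomial.C (r.den : ℤ), ?_, ?_⟩
    · rw [MvPolynomial.aeval_C]
      simp
    · rw [MvPolynomial.aeval_C, MvPolynomial.aeval_C]
      have h1 : ((r : ℚ) : ℝ) * (r.den : ℝ) = (r.num : ℝ) := by exact_mod_cast Rat.mul_den_eq_num r
      simpa using h1
  | add x y _ _ hx hy =>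
    obtain ⟨G, D, h1, h2⟩ := hx
    obtain ⟨G', D', h3, h4⟩ := hy
    refine ⟨G * D' + G' * D, D * D', ?_, ?_⟩
    · rw [map_mul]; exact mul_ne_zero h1 h3
    · rw [map_add, map_mul, map_mul, map_mul, ← h2, ← h4]; ring
  | inv x _ hx =>
    obtain ⟨G, D, h1, h2⟩ := hx
    by_cases h0 : x = 0
    · exact ⟨0, 1, by simp, by simp [h0]⟩
    · refine ⟨D, G, ?_, ?_⟩
      · rw [← h2]; exact mul_ne_zero h0 h1
      · rw [← h2]; field_simp
  | mul x y _ _ hx hy =>
    obtain ⟨G, D, h1, h2⟩ := hx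
    obtain ⟨G', D', h3, h4⟩ := hy
    refine ⟨G * G', D * D', ?_, ?_⟩
    · rw [map_mul]; exact mul_ne_zero h1 h3
    · rw [map_mul, map_mul, ← h2, ← h4]; ring

lemma PM.adjoin {ι κ : Type} [Fintype κ] {θ : ι → ℝ} (h : PM θ) {η : κ → ℝ} (hη : AlgebraicIndependent ℚ η)
    (hm : ∀ j, η j ∈ IntermediateField.adjoin ℚ (range θ)) : PM η := by
  choose G D h1 h2 using fun j => exists_frac (hm j)
  exact h.transfer hη G D h1 h2

open PowerSeries in
lemma Zk_mem_field {F : IntermediateField ℚ ℝ} {x : ℝ} (hx : 0 < x) {J : ℕ} (hE : Real.exp (-x) ∈ F)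
    (hEE : ∀ l, 1 ≤ l → l ≤ J → EE l x ∈ F) {k : ℕ} (hk : 2 ≤ k) (hkJ : k ≤ J) : Zk k x ∈ F := by
  have ha : 1 - Real.exp (-x) ∈ F := F.sub_mem F.one_mem hE
  have ha0 := (const_pos hx).ne'
  have hneg : ∀ n : ℕ, (-1 : ℝ) ^ n ∈ F := fun n => _root_.pow_mem (F.neg_mem F.one_mem) n
  have hA0 : coeff 0 (As x) = 1 - Real.exp (-x) := by rw [coeff_zero_eq_constantCoeff_apply, const_As]
  have hA : ∀ l ≤ J, coeff l (As x) ∈ F := by
    intro l hl
    rcases Nat.eq_zero_or_pos l with rfl | h0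
    · rw [hA0]; exact ha
    · rw [As, coeff_mk]
      exact F.mul_mem (hneg _) (hEE l h0 hl)
  have hL : ∀ j, j + 1 ≤ J → coeff j (Ls x) ∈ F := by
    intro j
    induction j using Nat.strong_induction_on with
    | _ j ih =>
      intro hj
      have h2 := congrArg (coeff j) (deriv_As hx)
      rw [coeff_derivative, coeff_mul, Finset.Nat.sum_antidiagonal_eq_sum_range_succ_mk, Finset.sum_range_succ'] at h2
      simp only [Nat.sub_zero, hA0] at h2
      have h3 : coeff j (Ls x) = (coeff (j + 1) (As x) * ((j : ℝ) + 1) -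
          ∑ i ∈ Finset.range j, coeff (i + 1) (As x) * coeff (j - (i + 1)) (Ls x)) / (1 - Real.exp (-x)) := by
        rw [eq_div_iff ha0, h2]; ring
      rw [h3]
      refine F.div_mem (F.sub_mem (F.mul_mem (hA _ hj) ?_) (F.sum_mem fun i hi => ?_)) ha
      · exact_mod_cast natCast_mem F (j + 1)
      · have := Finset.mem_range.1 hi
        exact F.mul_mem (hA _ (by omega)) (ih _ (by omega) (by omega))
  rw [Zk]
  exact F.mul_mem (hneg _) (F.mul_mem (_root_.pow_mem ha _) (hL _ (by omega)))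

/-- **Measure of algebraic independence** of `e` and the incomplete zeta values -/
theorem PM_Z (S : Finset (ℕ × ℚ)) (hS : ∀ p ∈ S, 2 ≤ p.1 ∧ 0 < p.2) :
    PM (fun o : Option S => o.elim (Real.exp 1) (fun p => Zk p.1.1 p.1.2)) := by
  classical
  set J : ℕ := S.sup Prod.fst with hJ
  set Y : Finset ℚ := S.image Prod.snd with hY
  set e := Fintype.equivFin Y with he
  set n := Fintype.card Y with hn
  set x : Fin n → ℚ := fun i => (e.symm i : ℚ) with hx
  have hinj : Function.Injective x := fun i j hij => e.symm.injective (Subtype.ext hij)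
  have hpos : ∀ i, 0 < x i := by
    intro i
    obtain ⟨p, hp, hp2⟩ := Finset.mem_image.1 (e.symm i).2
    rw [hx]
    simp only
    rw [← hp2]
    exact (hS p hp).2
  set q : ℕ := ∏ i, (x i).den with hqd
  have hq : 1 ≤ q := Nat.one_le_iff_ne_zero.2 (Finset.prod_ne_zero_iff.2 fun i _ => (x i).den_ne_zero)
  have hq' : (q : ℝ) ≠ 0 := by
    have : 0 < q := hq
    positivity
  have hm : ∀ i, ∃ m : ℕ, 1 ≤ m ∧ (m : ℝ) / q = x i := by
    intro i
    obtain ⟨c, hc⟩ := Finset.dvd_prod_of_mem (fun i => (x i).den) (Finset.mem_univ i)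
    have hc' : q = (x i).den * c := hc
    have hnum : 0 < (x i).num := Rat.num_pos.2 (hpos i)
    have hc0 : c ≠ 0 := by
      rintro rfl
      rw [mul_zero] at hc'
      omega
    refine ⟨(x i).num.toNat * c, ?_, ?_⟩
    · have h1 : 1 ≤ (x i).num.toNat := by omega
      exact Nat.one_le_iff_ne_zero.2 (Nat.mul_ne_zero (by omega) hc0)
    · have h2 : (((x i).num.toNat : ℕ) : ℝ) = ((x i).num : ℝ) := by
        have : (((x i).num.toNat : ℕ) : ℤ) = (x i).num := Int.toNat_of_nonneg hnum.le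
        exact_mod_cast this
      have h3 : ((x i : ℚ) : ℝ) = ((x i).num : ℝ) / ((x i).den : ℝ) := by
        exact_mod_cast (Rat.num_div_den (x i)).symm
      rw [hc', h3]
      push_cast
      rw [h2]
      have : ((x i).den : ℝ) ≠ 0 := by exact_mod_cast (x i).den_ne_zero
      have : (c : ℝ) ≠ 0 := by exact_mod_cast hc0
      field_simp
  choose mm hmm using hm
  have hinj' : Function.Injective mm := by
    intro i j hij
    apply hinj
    have h1 := (hmm i).2
    rw [hij, (hmm j).2] at h1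
    exact_mod_cast h1.symm
  have hPM := EE_PM J n mm hinj' (fun i => (hmm i).1) hq
  refine hPM.adjoin (AI_sub S hS) (fun o => ?_)
  set F := IntermediateField.adjoin ℚ (range (fun o : Option (Fin J × Fin n) =>
      o.elim (Real.exp (-1 / q)) (fun p => EE (p.1 + 1) ((mm p.2 : ℝ) / q)))) with hF
  have hexp : Real.exp (-1 / q) ∈ F := IntermediateField.subset_adjoin _ _ ⟨none, rfl⟩
  have hexpm : ∀ m : ℕ, Real.exp (-((m : ℝ) / q)) ∈ F := by
    intro m
    have h1 : Real.exp (-((m : ℝ) / q)) = Real.exp (-1 / q) ^ m := by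
      rw [← Real.exp_nat_mul]
      congr 1
      ring
    rw [h1]
    exact _root_.pow_mem hexp _
  cases o with
  | none =>
    show Real.exp 1 ∈ F
    have h1 : Real.exp 1 = (Real.exp (-((q : ℝ) / q)))⁻¹ := by
      rw [div_self hq', ← Real.exp_neg, neg_neg]
    rw [h1]
    exact F.inv_mem (hexpm q)
  | some p =>
    show Zk p.1.1 p.1.2 ∈ F
    have hpS := p.2
    have hpY : p.1.2 ∈ Y := Finset.mem_image_of_mem _ hpS
    obtain ⟨i, hi⟩ : ∃ i, x i = p.1.2 := ⟨e ⟨p.1.2, hpY⟩, by rw [hx]; simp⟩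
    have hxi : ((p.1.2 : ℚ) : ℝ) = (mm i : ℝ) / q := by rw [(hmm i).2, hi]
    have h0 : (0 : ℝ) < ((p.1.2 : ℚ) : ℝ) := by exact_mod_cast (hS p.1 hpS).2
    refine Zk_mem_field (J := J) h0 ?_ (fun l hl hlJ => ?_) (hS p.1 hpS).1 ?_
    · rw [hxi]; exact hexpm _
    · rw [hxi]
      refine IntermediateField.subset_adjoin _ _ ⟨some (⟨l - 1, by omega⟩, i), ?_⟩
      simp only [Option.elim]
      rw [Nat.sub_add_cancel hl]
    · exact Finset.le_sup (f := Prod.fst) hpS

end Pool.Agent.E8helper79.ZM
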