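import Pool.Agent.E8helper79.ZM.Step

/-!
# Joint measures
-/

set_option autoImplicit false

namespace Pool.Agent.E8helper79.ZM

open Pool.Agent.R352.E Pool.Agent.R352.Q MvPolynomial

/-- an injective integral substitution preserves a measure of algebraic independence -/
lemma PM.subst {ι κ : Type} [Finite κ] {θ : ι → ℝ} (h : PM θ) (σ : MvPolynomial κ ℤ →ₐ[ℤ] MvPolynomial ι ℤ)
    (hσ : Function.Injective σ) : PM (fun j => aeval θ (σ (X j))) := by
  intro d
  obtain ⟨D, L, hL, hfam⟩ := fam_bd (fun s : κ →₀ ℕ => σ (monomial s 1)) d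
  obtain ⟨c, hc, κ', h1⟩ := h D
  refine ⟨c / (L + 1) ^ κ', by positivity, κ', fun P hP hd H hH hcoef => ?_⟩
  obtain ⟨h2, h3⟩ := hfam P hd H (by linarith) hcoef
  have h4 : ∑ s ∈ P.support, C (P.coeff s) * σ (monomial s 1) = σ P := by
    conv_rhs => rw [MvPolynomial.as_sum P, map_sum]
    refine Finset.sum_congr rfl fun s _ => ?_
    have h5 : monomial s (coeff s P) = C (coeff s P) * monomial s (1 : ℤ) := by
      rw [C_mul_monomial, mul_one]
    rw [h5, map_mul]
    congr 1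
    simp
  rw [h4] at h2 h3
  have hLH : 1 ≤ (L + 1) * H := one_le_mul_of_one_le_of_one_le (by linarith) hH
  have h6 := h1 (σ P) (fun h0 => hP (hσ (h0.trans (map_zero _).symm))) h2 ((L + 1) * H) hLH
    (fun s => (abs_coeff_le_len _ s).trans (h3.trans (by nlinarith)))
  have h7 : aeval (fun j => aeval θ (σ (X j))) P = aeval θ (σ P) := by
    have h8 : (aeval (fun j => aeval θ (σ (X j))) : MvPolynomial κ ℤ →ₐ[ℤ] ℝ) = (aeval θ).comp σ := by
      apply algHom_ext
      intro j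
      rw [aeval_X, AlgHom.comp_apply]
    rw [h8, AlgHom.comp_apply]
  rw [h7, div_div, ← mul_pow]
  exact h6

/-- the numbers `ζ(k)` (for `none`) and `R_k(x)` (for `some x`) -/
noncomputable def wv (k : ℕ) (o : Option ℚ) : ℝ := o.elim (zt k) (fun x => Rk k x)

section names

variable (S : Finset (ℕ × Option ℚ)) (b : ℕ → Option ℚ)

/-- the pairs which occur -/
noncomputable def spt : Finset (ℕ × ℚ) := by
  classical
  exact S.biUnion fun p => (p.2.toFinset.image (fun x => (p.1, x))) ∪ ((b p.1).toFinset.image (fun x => (p.1, x)))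

lemma mem_spt {q : ℕ × ℚ} : q ∈ spt S b ↔ ∃ p ∈ S, p.1 = q.1 ∧ (p.2 = some q.2 ∨ b p.1 = some q.2) := by
  classical
  rw [spt, Finset.mem_biUnion]
  constructor
  · rintro ⟨p, hp, hq⟩
    refine ⟨p, hp, ?_⟩
    rw [Finset.mem_union, Finset.mem_image, Finset.mem_image] at hq
    rcases hq with ⟨x, hx, rfl⟩ | ⟨x, hx, rfl⟩
    · exact ⟨rfl, Or.inl (Option.mem_toFinset.1 hx)⟩
    · exact ⟨rfl, Or.inr (Option.mem_toFinset.1 hx)⟩
  · rintro ⟨p, hp, h1, h2⟩
    refine ⟨p, hp, ?_⟩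
    rw [Finset.mem_union, Finset.mem_image, Finset.mem_image]
    rcases h2 with h2 | h2
    · exact Or.inl ⟨q.2, Option.mem_toFinset.2 h2, by rw [h1]⟩
    · exact Or.inr ⟨q.2, Option.mem_toFinset.2 h2, by rw [h1]⟩

/-- the variable of `C_k(x)` -/
noncomputable def vV (k : ℕ) (o : Option ℚ) : MvPolynomial (Option (spt S b)) ℤ := by
  classical
  exact o.elim 0 (fun x => if h : (k, x) ∈ spt S b then X (some ⟨(k, x), h⟩) else 0)

/-- the variable of a name -/
noncomputable def vU (k : ℕ) (o : Option ℚ) : MvPolynomial (Option S) ℤ := by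
  classical
  exact if h : (k, o) ∈ S then X (some ⟨(k, o), h⟩) else 0

/-- the substitution -/
noncomputable def sg : MvPolynomial (Option S) ℤ →ₐ[ℤ] MvPolynomial (Option (spt S b)) ℤ :=
  aeval (fun o : Option S => o.elim (X none) (fun p => vV S b p.1.1 p.1.2 - vV S b p.1.1 (b p.1.1)))

/-- its left inverse -/
noncomputable def tu : MvPolynomial (Option (spt S b)) ℤ →ₐ[ℤ] MvPolynomial (Option S) ℤ :=
  aeval (fun o : Option (spt S b) => o.elim (X none) (fun q => vU S q.1.1 (some q.1.2) - vU S q.1.1 none))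

lemma tu_vV {k : ℕ} {o : Option ℚ} (h : ∀ x, o = some x → (k, x) ∈ spt S b) :
    tu S b (vV S b k o) = vU S k o - vU S k none := by
  classical
  cases o with
  | none => rw [vV]; simp
  | some x =>
    rw [vV]
    simp only [Option.elim]
    rw [dif_pos (h x rfl), tu, aeval_X]
    rfl

lemma sg_inj (hS : ∀ p ∈ S, p.2 ≠ b p.1) : Function.Injective (sg S b) := by
  classical
  have h : (tu S b).comp (sg S b) = AlgHom.id ℤ _ := by
    apply algHom_ext
    intro o
    rw [AlgHom.comp_apply, AlgHom.id_apply, sg, aeval_X]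
    cases o with
    | none => simp only [Option.elim]; rw [tu, aeval_X]; rfl
    | some p =>
      simp only [Option.elim]
      rw [map_sub, tu_vV S b (fun x hx => (mem_spt S b).2 ⟨p.1, p.2, rfl, Or.inl hx⟩),
        tu_vV S b (fun x hx => (mem_spt S b).2 ⟨p.1, p.2, rfl, Or.inr hx⟩)]
      have h1 : vU S p.1.1 p.1.2 = X (some p) := by
        rw [vU, dif_pos p.2]
      have h2 : vU S p.1.1 (b p.1.1) = 0 := by
        rw [vU, dif_neg]
        intro h3
        exact hS _ h3 rfl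
      rw [h1, h2]
      ring
  intro x y hxy
  have h1 := congrArg (tu S b) hxy
  have h2 : ∀ z, tu S b (sg S b z) = z := fun z => congrArg (fun g => g z) h
  rw [h2, h2] at h1
  exact h1

lemma aeval_vV {k : ℕ} {o : Option ℚ} (h : ∀ x, o = some x → (k, x) ∈ spt S b) :
    aeval (fun o : Option (spt S b) => o.elim (Real.exp 1) (fun p => Zk p.1.1 p.1.2)) (vV S b k o) =
      zt k - wv k o := by
  classical
  cases o with
  | none => rw [vV, wv]; simp
  | some x =>
    rw [vV, wv]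
    simp only [Option.elim]
    rw [dif_pos (h x rfl), aeval_X, Rk]
    ring

/-- the measure for the differences -/
theorem base_PM (hS : ∀ p ∈ S, 2 ≤ p.1 ∧ p.2 ≠ b p.1 ∧ (∀ x, p.2 = some x → 0 < x) ∧ (∀ x, b p.1 = some x → 0 < x)) :
    PM (fun o : Option S => o.elim (Real.exp 1) (fun p => wv p.1.1 (b p.1.1) - wv p.1.1 p.1.2)) := by
  have h1 := PM_Z (spt S b) (by
    intro q hq
    obtain ⟨p, hp, h2, h3⟩ := (mem_spt S b).1 hq
    obtain ⟨h4, -, h5, h6⟩ := hS p hp
    refine ⟨by rw [← h2]; exact h4, ?_⟩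
    rcases h3 with h3 | h3
    · exact h5 _ h3
    · exact h6 _ h3)
  have h2 := h1.subst (sg S b) (sg_inj S b fun p hp => (hS p hp).2.1)
  convert h2 using 1
  funext o
  cases o with
  | none => simp [sg]
  | some p =>
    rw [sg, aeval_X]
    show wv p.1.1 (b p.1.1) - wv p.1.1 p.1.2 =
      aeval (fun o : Option (spt S b) => o.elim (Real.exp 1) (fun p => Zk p.1.1 p.1.2))
        (vV S b p.1.1 p.1.2 - vV S b p.1.1 (b p.1.1))
    rw [map_sub, aeval_vV S b (fun x hx => (mem_spt S b).2 ⟨p.1, p.2, rfl, Or.inl hx⟩),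
      aeval_vV S b (fun x hx => (mem_spt S b).2 ⟨p.1, p.2, rfl, Or.inr hx⟩)]
    ring

/-- the joint measure, by induction -/
theorem joint_aux
    (hS : ∀ p ∈ S, 2 ≤ p.1 ∧ p.2 ≠ b p.1 ∧ (∀ x, p.2 = some x → 0 < x) ∧ (∀ x, b p.1 = some x → 0 < x))
    (A : Finset ℕ) : ∀ d : ℕ, ∃ c : ℝ, 0 < c ∧ ∃ κ : ℕ,
    ∀ (P : ℕ → MvPolynomial (Fin 2) ℤ) (Q : MvPolynomial (Option S) ℤ),
      (∀ k ∈ A, P k ≠ 0) → Q ≠ 0 → (∀ k ∈ A, (P k).totalDegree ≤ d) → Q.totalDegree ≤ d → ∀ H : ℝ, 1 ≤ H →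
      (∀ k ∈ A, ∀ s, |(((P k).coeff s : ℤ) : ℝ)| ≤ H) → (∀ s, |((Q.coeff s : ℤ) : ℝ)| ≤ H) →
      ∀ E : ℝ, (∀ k ∈ A, |aeval ![wv k (b k), Real.exp 1] (P k)| ≤ E) →
        |aeval (fun o : Option S => o.elim (Real.exp 1) (fun p => if p.1.1 ∈ A then wv p.1.1 p.1.2 else
          wv p.1.1 (b p.1.1) - wv p.1.1 p.1.2)) Q| ≤ E → c / H ^ κ ≤ E := by
  classical
  induction A using Finset.induction_on with
  | empty =>
    intro d
    obtain ⟨c, hc, κ, h1⟩ := base_PM S b hS d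
    refine ⟨c, hc, κ, fun P Q _ hQ _ hQd H hH _ hQH E _ hQE => ?_⟩
    refine (h1 Q hQ hQd H hH hQH).trans ?_
    simpa using hQE
  | insert a A ha ih =>
    intro d
    obtain ⟨d', K, κ₁, hK, h1⟩ := elim_step (S := S) (fun p => p.1.1 = a) (Real.exp 1) (wv a (b a))
      (fun p => if p.1.1 ∈ A then wv p.1.1 p.1.2 else wv p.1.1 (b p.1.1) - wv p.1.1 p.1.2) d
    obtain ⟨c₂, hc₂, κ₂, h2⟩ := ih (max d d')
    refine ⟨c₂ / K ^ (κ₂ + 1), by positivity, (κ₁ + 1) * (κ₂ + 1),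
      fun P Q hP hQ hPd hQd H hH hPH hQH E hPE hQE => ?_⟩
    have haA := Finset.mem_insert_self a A
    obtain ⟨F, hF0, hFd, hFH, hFE⟩ := h1 (P a) Q (hP a haA) hQ (hPd a haA) hQd H hH (hPH a haA) hQH
    have hfam : (fun o : Option S => o.elim (Real.exp 1) (fun p => if p.1.1 = a then
        wv a (b a) - (if p.1.1 ∈ A then wv p.1.1 p.1.2 else wv p.1.1 (b p.1.1) - wv p.1.1 p.1.2) else
        (if p.1.1 ∈ A then wv p.1.1 p.1.2 else wv p.1.1 (b p.1.1) - wv p.1.1 p.1.2))) =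
        (fun o : Option S => o.elim (Real.exp 1) (fun p => if p.1.1 ∈ insert a A then wv p.1.1 p.1.2 else
          wv p.1.1 (b p.1.1) - wv p.1.1 p.1.2)) := by
      funext o
      cases o with
      | none => rfl
      | some p =>
        show (if p.1.1 = a then _ else _) = (if p.1.1 ∈ insert a A then _ else _)
        by_cases hpa : p.1.1 = a
        · rw [if_pos hpa, hpa, if_neg ha, if_pos haA]
          ring
        · rw [if_neg hpa]
          by_cases hpA : p.1.1 ∈ A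
          · rw [if_pos hpA, if_pos (Finset.mem_insert_of_mem hpA)]
          · rw [if_neg hpA, if_neg (fun h => (Finset.mem_insert.1 h).elim hpa hpA)]
    have hE0 : 0 ≤ E := (abs_nonneg _).trans hQE
    have hFE' := hFE E (hPE a haA) (by rw [hfam]; exact hQE)
    have hH0 : 0 < H := by linarith
    have hKH : 1 ≤ K * H ^ κ₁ := one_le_mul_of_one_le_of_one_le hK (one_le_pow₀ hH)
    obtain ⟨H', hH'⟩ : ∃ H', H' = K * H ^ κ₁ * H := ⟨_, rfl⟩
    have hH'1 : 1 ≤ H' := by rw [hH']; exact one_le_mul_of_one_le_of_one_le hKH hH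
    have hHH' : H ≤ H' := by rw [hH']; exact le_mul_of_one_le_left hH0.le hKH
    have hKH' : K * H ^ κ₁ ≤ H' := by rw [hH']; exact le_mul_of_one_le_right (by linarith) hH
    have h3 := h2 P F (fun k hk => hP k (Finset.mem_insert_of_mem hk)) hF0
      (fun k hk => (hPd k (Finset.mem_insert_of_mem hk)).trans (le_max_left _ _)) (hFd.trans (le_max_right _ _)) H' hH'1
      (fun k hk s => (hPH k (Finset.mem_insert_of_mem hk) s).trans hHH') (fun s => (hFH s).trans hKH') (H' * E)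
      (fun k hk => (hPE k (Finset.mem_insert_of_mem hk)).trans (le_mul_of_one_le_left hE0 hH'1))
      (hFE'.trans (mul_le_mul_of_nonneg_right hKH' hE0))
    have hH'0 : 0 < H' := by linarith
    rw [div_le_iff₀ (by positivity)] at h3
    rw [div_div, div_le_iff₀ (by positivity)]
    calc c₂ ≤ H' * E * H' ^ κ₂ := h3
      _ = E * H' ^ (κ₂ + 1) := by ring
      _ = E * (K ^ (κ₂ + 1) * H ^ ((κ₁ + 1) * (κ₂ + 1))) := by
          rw [hH', pow_mul H, ← mul_pow]
          ring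

/-- **The joint measure** -/
theorem joint
    (hS : ∀ p ∈ S, 2 ≤ p.1 ∧ p.2 ≠ b p.1 ∧ (∀ x, p.2 = some x → 0 < x) ∧ (∀ x, b p.1 = some x → 0 < x))
    (A : Finset ℕ) (hA : ∀ p ∈ S, p.1 ∈ A) : ∀ d : ℕ, ∃ c : ℝ, 0 < c ∧ ∃ κ : ℕ,
    ∀ (P : ℕ → MvPolynomial (Fin 2) ℤ) (Q : MvPolynomial (Option S) ℤ),
      (∀ k ∈ A, P k ≠ 0) → Q ≠ 0 → (∀ k ∈ A, (P k).totalDegree ≤ d) → Q.totalDegree ≤ d → ∀ H : ℝ, 1 ≤ H →
      (∀ k ∈ A, ∀ s, |(((P k).coeff s : ℤ) : ℝ)| ≤ H) → (∀ s, |((Q.coeff s : ℤ) : ℝ)| ≤ H) →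
      (∃ k ∈ A, c / H ^ κ ≤ |aeval ![wv k (b k), Real.exp 1] (P k)|) ∨
        c / H ^ κ ≤ |aeval (fun o : Option S => o.elim (Real.exp 1) (fun p => wv p.1.1 p.1.2)) Q| := by
  classical
  intro d
  obtain ⟨c, hc, κ, h1⟩ := joint_aux S b hS A d
  refine ⟨c, hc, κ, fun P Q hP hQ hPd hQd H hH hPH hQH => ?_⟩
  obtain ⟨q, hq⟩ : ∃ q, q = |aeval (fun o : Option S => o.elim (Real.exp 1) (fun p => wv p.1.1 p.1.2)) Q| := ⟨_, rfl⟩
  obtain ⟨W, hW⟩ : ∃ W, W = insert q (A.image fun k => |aeval ![wv k (b k), Real.exp 1] (P k)|) := ⟨_, rfl⟩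
  have hne : W.Nonempty := by rw [hW]; exact Finset.insert_nonempty _ _
  have hmax := W.max'_mem hne
  have h2 := h1 P Q hP hQ hPd hQd H hH hPH hQH (W.max' hne)
    (fun k hk => W.le_max' _ (by rw [hW]; exact Finset.mem_insert_of_mem (Finset.mem_image_of_mem _ hk)))
    (by
      have hfam : (fun o : Option S => o.elim (Real.exp 1) (fun p => if p.1.1 ∈ A then wv p.1.1 p.1.2 else
          wv p.1.1 (b p.1.1) - wv p.1.1 p.1.2)) =
          (fun o : Option S => o.elim (Real.exp 1) (fun p => wv p.1.1 p.1.2)) := by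
        funext o
        cases o with
        | none => rfl
        | some p =>
          show (if p.1.1 ∈ A then _ else _) = _
          exact if_pos (hA p.1 p.2)
      rw [hfam, ← hq]
      exact W.le_max' _ (by rw [hW]; exact Finset.mem_insert_self _ _))
  have hmem : ∀ x ∈ W, x = q ∨ ∃ k ∈ A, |aeval ![wv k (b k), Real.exp 1] (P k)| = x := by
    intro x hx
    rw [hW, Finset.mem_insert, Finset.mem_image] at hx
    exact hx
  rw [← hq]
  rcases hmem _ hmax with h3 | ⟨k, hk, h3⟩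
  · right
    rw [h3] at h2
    exact h2
  · left
    refine ⟨k, hk, ?_⟩
    rw [h3]
    exact h2

end names

end Pool.Agent.E8helper79.ZM
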