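import Pool.Agent.E8helper79.ZM.Elim
import Pool.Agent.E8helper79.ZM.Trans

/-!
# One step of the elimination
-/

set_option autoImplicit false

namespace Pool.Agent.E8helper79.ZM

variable {S : Type}

lemma polF_eval (e z : ℝ) (η : S → ℝ) (P : MvPolynomial (Fin 2) ℤ) :
    ((polF (S := S) P).map (MvPolynomial.aeval (fun o : Option S => o.elim e η) :
      MvPolynomial (Option S) ℤ →ₐ[ℤ] ℝ).toRingHom).eval z = MvPolynomial.aeval ![z, e] P := by
  have h : ((Polynomial.evalRingHom z).comp ((Polynomial.mapRingHom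
      (MvPolynomial.aeval (fun o : Option S => o.elim e η) : MvPolynomial (Option S) ℤ →ₐ[ℤ] ℝ).toRingHom).comp
      (MvPolynomial.aeval ![Polynomial.X, Polynomial.C (MvPolynomial.X none)] :
        MvPolynomial (Fin 2) ℤ →ₐ[ℤ] Polynomial (MvPolynomial (Option S) ℤ)).toRingHom)) =
      (MvPolynomial.aeval ![z, e] : MvPolynomial (Fin 2) ℤ →ₐ[ℤ] ℝ).toRingHom := by
    apply MvPolynomial.ringHom_ext
    · intro r
      simp
    · intro i
      fin_cases i
      · simp
      · simp
  exact congrArg (fun g => g P) h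

lemma polG_eval' (T : S → Prop) [DecidablePred T] (e z : ℝ) (η : S → ℝ) (Q : MvPolynomial (Option S) ℤ) :
    ((polG T Q).map (MvPolynomial.aeval (fun o : Option S => o.elim e η) :
      MvPolynomial (Option S) ℤ →ₐ[ℤ] ℝ).toRingHom).eval z =
      MvPolynomial.aeval (fun o : Option S => o.elim e (fun s => if T s then z - η s else η s)) Q := by
  have h : ((Polynomial.evalRingHom z).comp ((Polynomial.mapRingHom
      (MvPolynomial.aeval (fun o : Option S => o.elim e η) : MvPolynomial (Option S) ℤ →ₐ[ℤ] ℝ).toRingHom).comp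
      (MvPolynomial.aeval (fun o : Option S => o.elim (Polynomial.C (MvPolynomial.X none))
        (fun s => if T s then Polynomial.X - Polynomial.C (MvPolynomial.X (some s))
        else Polynomial.C (MvPolynomial.X (some s)))) :
        MvPolynomial (Option S) ℤ →ₐ[ℤ] Polynomial (MvPolynomial (Option S) ℤ)).toRingHom)) =
      (MvPolynomial.aeval (fun o : Option S => o.elim e (fun s => if T s then z - η s else η s)) :
        MvPolynomial (Option S) ℤ →ₐ[ℤ] ℝ).toRingHom := by
    apply MvPolynomial.ringHom_ext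
    · intro r
      simp
    · intro i
      cases i with
      | none => simp
      | some s =>
        by_cases hs : T s
        · simp [hs]
        · simp [hs]
  exact congrArg (fun g => g Q) h

lemma polF_sum (P : MvPolynomial (Fin 2) ℤ) : polF (S := S) P =
    ∑ s ∈ P.support, Polynomial.C (MvPolynomial.C (P.coeff s)) * polF (MvPolynomial.monomial s 1) := by
  conv_lhs => rw [MvPolynomial.as_sum P, polF, map_sum]
  refine Finset.sum_congr rfl fun s _ => ?_
  have h : MvPolynomial.monomial s (MvPolynomial.coeff s P) =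
      MvPolynomial.C (MvPolynomial.coeff s P) * MvPolynomial.monomial s (1 : ℤ) := by
    rw [MvPolynomial.C_mul_monomial, mul_one]
  rw [h, map_mul, polF]
  congr 1
  rw [MvPolynomial.aeval_C]
  simp

lemma polG_sum (T : S → Prop) [DecidablePred T] (Q : MvPolynomial (Option S) ℤ) : polG T Q =
    ∑ s ∈ Q.support, Polynomial.C (MvPolynomial.C (Q.coeff s)) * polG T (MvPolynomial.monomial s 1) := by
  conv_lhs => rw [MvPolynomial.as_sum Q, polG, map_sum]
  refine Finset.sum_congr rfl fun s _ => ?_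
  have h : MvPolynomial.monomial s (MvPolynomial.coeff s Q) =
      MvPolynomial.C (MvPolynomial.coeff s Q) * MvPolynomial.monomial s (1 : ℤ) := by
    rw [MvPolynomial.C_mul_monomial, mul_one]
  rw [h, map_mul, polG]
  congr 1
  rw [MvPolynomial.aeval_C]
  simp

/-- one step of the elimination: from polynomials `P`, `Q` whose values at `(z, e)` and `(e, z - η_s)` are small one
gets a nonzero polynomial `F` whose value at `(e, η_s)` is small -/
theorem elim_step [Fintype S] (T : S → Prop) [DecidablePred T] (e z : ℝ) (η : S → ℝ) (d : ℕ) :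
    ∃ (d' : ℕ) (K : ℝ) (κ : ℕ), 1 ≤ K ∧ ∀ (P : MvPolynomial (Fin 2) ℤ) (Q : MvPolynomial (Option S) ℤ), P ≠ 0 → Q ≠ 0 →
      P.totalDegree ≤ d → Q.totalDegree ≤ d → ∀ H : ℝ, 1 ≤ H → (∀ s, |((P.coeff s : ℤ) : ℝ)| ≤ H) →
      (∀ s, |((Q.coeff s : ℤ) : ℝ)| ≤ H) →
      ∃ F : MvPolynomial (Option S) ℤ, F ≠ 0 ∧ F.totalDegree ≤ d' ∧ (∀ s, |((F.coeff s : ℤ) : ℝ)| ≤ K * H ^ κ) ∧
        ∀ E : ℝ, |MvPolynomial.aeval ![z, e] P| ≤ E →
          |MvPolynomial.aeval (fun o : Option S => o.elim e (fun s => if T s then z - η s else η s)) Q| ≤ E →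
          |MvPolynomial.aeval (fun o : Option S => o.elim e η) F| ≤ K * H ^ κ * E := by
  classical
  obtain ⟨N1, D1, L1, hL1, h1⟩ := fam_bd' (ι := Option S) (fun s : Fin 2 →₀ ℕ => polF (MvPolynomial.monomial s 1)) d
  obtain ⟨N2, D2, L2, hL2, h2⟩ := fam_bd' (ι := Option S) (fun s : Option S →₀ ℕ => polG T (MvPolynomial.monomial s 1)) d
  obtain ⟨D, hD⟩ : ∃ D, D = D1 + D2 := ⟨_, rfl⟩
  obtain ⟨L, hL⟩ : ∃ L, L = L1 + L2 + 1 := ⟨_, rfl⟩
  obtain ⟨N, hN⟩ : ∃ N, N = N1 + N2 + 1 := ⟨_, rfl⟩
  obtain ⟨B, hB⟩ : ∃ B : ℝ, B = 1 + |e| + ∑ s, |η s| := ⟨_, rfl⟩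
  obtain ⟨Z, hZ⟩ : ∃ Z : ℝ, Z = 1 + |z| := ⟨_, rfl⟩
  have hL1' : 1 ≤ L := by rw [hL]; linarith
  have hη0 : 0 ≤ ∑ s, |η s| := Finset.sum_nonneg fun _ _ => abs_nonneg _
  have hB1 : 1 ≤ B := by rw [hB]; have := abs_nonneg e; linarith
  have hZ1 : 1 ≤ Z := by rw [hZ]; have := abs_nonneg z; linarith
  have hηB : ∀ o : Option S, |o.elim e η| ≤ B := by
    intro o
    cases o with
    | none => show |e| ≤ B; rw [hB]; linarith
    | some s =>
      show |η s| ≤ B
      have h3 : |η s| ≤ ∑ s, |η s| := Finset.single_le_sum (f := fun s => |η s|) (fun _ _ => abs_nonneg _) (Finset.mem_univ s)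
      rw [hB]
      have := abs_nonneg e
      linarith
  obtain ⟨K1, hK1⟩ : ∃ K1 : ℝ, K1 = N.factorial * L ^ N := ⟨_, rfl⟩
  obtain ⟨K2, hK2⟩ : ∃ K2 : ℝ, K2 = N * (Z ^ N * (N.factorial * (L * B ^ D) ^ N)) := ⟨_, rfl⟩
  have hK10 : 0 ≤ K1 := by rw [hK1]; positivity
  have hK20 : 0 ≤ K2 := by rw [hK2]; positivity
  refine ⟨N * D, K1 + K2 + 1, N, by linarith, fun P Q hP hQ hPd hQd H hH hPH hQH => ?_⟩
  have hH0 : 0 ≤ H := by linarith
  obtain ⟨h3, h4⟩ := h1 P hPd H hH0 hPH
  obtain ⟨h5, h6⟩ := h2 Q hQd H hH0 hQH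
  rw [← polF_sum] at h3 h4
  rw [← polG_sum] at h5 h6
  obtain ⟨f, hf⟩ : ∃ f, f = polF (S := S) P := ⟨_, rfl⟩
  obtain ⟨g, hg⟩ : ∃ g, g = polG T Q := ⟨_, rfl⟩
  rw [← hf] at h3 h4
  rw [← hg] at h5 h6
  obtain ⟨m, hm⟩ : ∃ m, m = f.natDegree := ⟨_, rfl⟩
  obtain ⟨n, hn⟩ : ∃ n, n = g.natDegree + 1 := ⟨_, rfl⟩
  have hmn : m + n ≤ N := by omega
  have hmn0 : 0 < m + n := by omega
  have hLH : 1 ≤ L * H := one_le_mul_of_one_le_of_one_le hL1' hH
  -- bounds for the entries
  have hfD : ∀ j, (f.coeff j).totalDegree ≤ D := fun j => ((h4 j).1).trans (by omega)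
  have hgD : ∀ j, (g.coeff j).totalDegree ≤ D := fun j => ((h6 j).1).trans (by omega)
  have hfL : ∀ j, len (f.coeff j) ≤ L * H := fun j =>
    ((h4 j).2).trans (mul_le_mul_of_nonneg_right (by linarith) hH0)
  have hgL : ∀ j, len (g.coeff j) ≤ L * H := fun j =>
    ((h6 j).2).trans (mul_le_mul_of_nonneg_right (by linarith) hH0)
  have hentD : ∀ i j, (Polynomial.sylvester f g m n i j).totalDegree ≤ D := by
    intro i j
    induction j using Fin.addCases with
    | left j₁ =>
      simp only [Polynomial.sylvester, Matrix.of_apply, Fin.addCases_left]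
      split_ifs
      · exact hgD _
      · rw [MvPolynomial.totalDegree_zero]; exact Nat.zero_le _
    | right j₁ =>
      simp only [Polynomial.sylvester, Matrix.of_apply, Fin.addCases_right]
      split_ifs
      · exact hfD _
      · rw [MvPolynomial.totalDegree_zero]; exact Nat.zero_le _
  have hentL : ∀ i j, len (Polynomial.sylvester f g m n i j) ≤ L * H := by
    intro i j
    induction j using Fin.addCases with
    | left j₁ =>
      simp only [Polynomial.sylvester, Matrix.of_apply, Fin.addCases_left]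
      split_ifs
      · exact hgL _
      · rw [len_zero]; linarith
    | right j₁ =>
      simp only [Polynomial.sylvester, Matrix.of_apply, Fin.addCases_right]
      split_ifs
      · exact hfL _
      · rw [len_zero]; linarith
  have hfac : ((m + n).factorial : ℝ) ≤ N.factorial := by exact_mod_cast Nat.factorial_le hmn
  have hHN : (0 : ℝ) ≤ H ^ N := by positivity
  refine ⟨Polynomial.resultant f g m n, ?_, ?_, fun s => ?_, fun E hPE hQE => ?_⟩
  · -- nonvanishing
    have hφ1 : Function.Injective (algebraMap (Polynomial ℤ) (FractionRing (Polynomial ℤ))) :=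
      IsFractionRing.injective _ _
    have hφ2 : Function.Injective (algebraMap (FractionRing (Polynomial ℤ))
        (AlgebraicClosure (FractionRing (Polynomial ℤ)))) := RingHom.injective _
    have hφ : Function.Injective ((algebraMap (FractionRing (Polynomial ℤ))
        (AlgebraicClosure (FractionRing (Polynomial ℤ)))).comp
        (algebraMap (Polynomial ℤ) (FractionRing (Polynomial ℤ)))) := hφ2.comp hφ1
    have h7 := res_ne_zero T _ hφ hP hQ (n := n) (by rw [← hg]; omega)
    rw [← hg, ← hf, ← hm] at h7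
    exact h7
  · refine (totalDegree_det _ hentD).trans ?_
    exact Nat.mul_le_mul_right _ hmn
  · refine (abs_coeff_le_len _ s).trans ((len_det _ hentL).trans ?_)
    calc ((m + n).factorial : ℝ) * (L * H) ^ (m + n) ≤ N.factorial * (L * H) ^ N :=
          mul_le_mul hfac (pow_le_pow_right₀ hLH hmn) (by positivity) (by positivity)
      _ = K1 * H ^ N := by rw [hK1, mul_pow]; ring
      _ ≤ (K1 + K2 + 1) * H ^ N := mul_le_mul_of_nonneg_right (by linarith) hHN
  · have hE0 : 0 ≤ E := (abs_nonneg _).trans hPE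
    obtain ⟨φ, hφ⟩ : ∃ φ : MvPolynomial (Option S) ℤ →+* ℝ, φ = (MvPolynomial.aeval (fun o : Option S => o.elim e η) :
      MvPolynomial (Option S) ℤ →ₐ[ℤ] ℝ).toRingHom := ⟨_, rfl⟩
    have h7 : MvPolynomial.aeval (fun o : Option S => o.elim e η) (Polynomial.resultant f g m n) =
        Polynomial.resultant (f.map φ) (g.map φ) m n := by
      rw [Polynomial.resultant_map_map, hφ]
      rfl
    have hX1 : 1 ≤ L * B ^ D * H := by
      have h8 : 1 ≤ L * B ^ D := one_le_mul_of_one_le_of_one_le hL1' (one_le_pow₀ hB1)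
      exact one_le_mul_of_one_le_of_one_le h8 hH
    have hcoef : ∀ (p : Polynomial (MvPolynomial (Option S) ℤ)), (∀ j, (p.coeff j).totalDegree ≤ D) →
        (∀ j, len (p.coeff j) ≤ L * H) → ∀ j, |(p.map φ).coeff j| ≤ L * B ^ D * H := by
      intro p hp1 hp2 j
      rw [Polynomial.coeff_map, hφ]
      have h8 := aeval_le hB1 hηB (p.coeff j) (hp1 j)
      refine h8.trans ?_
      calc len (p.coeff j) * B ^ D ≤ L * H * B ^ D := mul_le_mul_of_nonneg_right (hp2 j) (by positivity)
        _ = L * B ^ D * H := by ring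
    rw [h7]
    refine (det_syl_le (f.map φ) (g.map φ) hmn0 (Polynomial.natDegree_map_le.trans (by omega))
      (Polynomial.natDegree_map_le.trans (by omega)) z hX1 (hcoef f hfD hfL) (hcoef g hgD hgL) hZ1
      (by rw [hZ]; linarith) (E := E) ?_ ?_).trans ?_
    · rw [hφ, hf, polF_eval]; exact hPE
    · rw [hφ, hg, polG_eval']; exact hQE
    · have h9 : ((m + n : ℕ) : ℝ) ≤ N := by exact_mod_cast hmn
      calc ((m + n : ℕ) : ℝ) * (Z ^ (m + n) * E * ((m + n).factorial * (L * B ^ D * H) ^ (m + n)))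
          ≤ N * (Z ^ N * E * (N.factorial * (L * B ^ D * H) ^ N)) := by
            refine mul_le_mul h9 ?_ (by positivity) (by positivity)
            refine mul_le_mul ?_ ?_ (by positivity) (by positivity)
            · exact mul_le_mul_of_nonneg_right (pow_le_pow_right₀ hZ1 hmn) hE0
            · exact mul_le_mul hfac (pow_le_pow_right₀ hX1 hmn) (by positivity) (by positivity)
        _ = K2 * H ^ N * E := by rw [hK2, mul_pow (L * B ^ D)]; ring
        _ ≤ (K1 + K2 + 1) * H ^ N * E := by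
            refine mul_le_mul_of_nonneg_right ?_ hE0
            exact mul_le_mul_of_nonneg_right (by linarith) hHN

end Pool.Agent.E8helper79.ZM
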